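import Pool.Agent.J6H37.Z13.DefsG

/-!
# Data of the archimedean part: atoms, exponents, exponents of the bounds; the basis `P_i`
-/

open Polynomial Pool.Agent.H337R2

namespace Pool.Agent.J6H37.Z13

noncomputable section

/-- atoms of part 1 -/
def la1 : List (ℚ × ℚ) := [
  (3/10, 0), (33/10, 0), (122/5, 0), (137/10, 1/5), (36/5, 5), (113/10, 42/5), (15, 63/5),
  (103/5, 159/10)]

/-- exponents of part 1 (5 stages, 8 atoms, each stage of total exponent 12) -/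
def ls1 : List (List ℕ) := [
   [0, 9, 0, 0, 3, 0, 0, 0],
   [1, 1, 2, 0, 3, 5, 0, 0],
   [1, 0, 2, 4, 1, 0, 4, 0],
   [1, 0, 3, 0, 2, 0, 1, 5],
   [0, 1, 2, 0, 0, 0, 0, 9]]

/-- bounds of part 1: powers of two, shifted by `30000` -/
def lt1 : List ℕ := [
  198, 1210, 2342, 3519, 4729, 5973]

/-- atoms of part 2 -/
def la2 : List (ℚ × ℚ) := [
  (146/5, 2/5), (138/5, 29/10), (431/10, 19/5), (148/5, 22/5), (67/2, 28/5), (321/10, 67/10),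
  (173/5, 48/5), (183/5, 23/2), (409/10, 64/5), (391/10, 14), (421/10, 171/10), (223/5, 199/10),
  (93/2, 109/5), (471/10, 45/2), (50, 126/5), (53, 141/5), (55, 152/5), (579/10, 167/5),
  (611/10, 367/10), (651/10, 201/5), (344/5, 221/5), (723/10, 238/5), (771/10, 521/10),
  (402/5, 281/5), (416/5, 59), (87, 627/10), (459/5, 337/5), (957/10, 713/10), (973/10, 731/10),
  (509/5, 777/10), (1089/10, 422/5), (598/5, 477/5), (1313/10, 1067/10), (1447/10, 601/5)]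

/-- exponents of part 2 (10 stages, 34 atoms, each stage of total exponent 18) -/
def ls2 : List (List ℕ) := [
   [0, 0, 0, 0, 0, 2, 3, 2, 0, 3, 3, 2, 0, 2, 1, 0, 0, 0, 0, 0, 0, 0, 0, 0, 0, 0, 0, 0, 0, 0, 0, 0, 0, 0],
   [0, 0, 0, 1, 1, 1, 0, 1, 1, 1, 1, 1, 0, 0, 4, 1, 2, 2, 1, 0, 0, 0, 0, 0, 0, 0, 0, 0, 0, 0, 0, 0, 0, 0],
   [0, 0, 0, 1, 2, 0, 0, 1, 0, 0, 1, 0, 1, 0, 1, 1, 1, 1, 2, 4, 2, 0, 0, 0, 0, 0, 0, 0, 0, 0, 0, 0, 0, 0],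
   [0, 0, 0, 1, 1, 1, 0, 0, 0, 0, 1, 1, 0, 0, 1, 0, 1, 1, 1, 0, 2, 3, 3, 1, 0, 0, 0, 0, 0, 0, 0, 0, 0, 0],
   [0, 1, 0, 0, 1, 0, 0, 0, 0, 1, 0, 0, 1, 0, 0, 2, 0, 0, 1, 1, 0, 1, 3, 0, 2, 3, 1, 0, 0, 0, 0, 0, 0, 0],
   [1, 0, 0, 0, 0, 1, 0, 0, 0, 1, 0, 0, 0, 1, 0, 0, 0, 1, 0, 2, 0, 0, 2, 1, 0, 1, 3, 0, 3, 1, 0, 0, 0, 0],
   [0, 1, 0, 0, 0, 0, 0, 0, 2, 0, 0, 0, 0, 0, 0, 0, 1, 0, 1, 0, 0, 1, 1, 0, 1, 2, 0, 1, 0, 2, 5, 0, 0, 0],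
   [1, 0, 1, 0, 0, 0, 0, 0, 0, 0, 0, 0, 1, 0, 0, 0, 1, 0, 0, 2, 0, 0, 0, 0, 0, 1, 1, 0, 1, 0, 4, 5, 0, 0],
   [1, 0, 0, 0, 0, 0, 0, 1, 0, 0, 0, 0, 0, 1, 0, 0, 0, 0, 0, 0, 0, 2, 0, 0, 1, 0, 0, 0, 0, 2, 2, 3, 5, 0],
   [1, 0, 0, 0, 0, 0, 0, 0, 1, 0, 0, 0, 0, 0, 0, 0, 1, 0, 0, 1, 0, 0, 0, 0, 1, 1, 0, 1, 0, 0, 1, 0, 6, 4]]

/-- bounds of part 2: powers of two, shifted by `30000` -/
def lt2 : List ℕ := [
  5970, 7765, 9677, 11651, 13676, 15744, 17850, 19993, 22171, 24379, 26612]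

abbrev at1 (k : ℕ) : ℚ × ℚ := la1.getD k (0, 0)
abbrev at2 (k : ℕ) : ℚ × ℚ := la2.getD k (0, 0)
abbrev sg1 (s k : ℕ) : ℕ := (ls1.getD s []).getD k 0
abbrev sg2 (s k : ℕ) : ℕ := (ls2.getD s []).getD k 0
abbrev t1 (s : ℕ) : ℕ := lt1.getD s 0
abbrev t2 (s : ℕ) : ℕ := lt2.getD s 0

/-- stage polynomial of part 1, degree `24` -/
def C1 (N s : ℕ) : ℚ[X] := ∏ k ∈ Finset.range 8, qa N (at1 k).1 (at1 k).2 ^ sg1 s k

/-- stage polynomial of part 2, degree `36` -/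
def C2 (N s : ℕ) : ℚ[X] := ∏ k ∈ Finset.range 34, qa N (at2 k).1 (at2 k).2 ^ sg2 s k

/-- `∏ |q|^(4 σ)` of stage `s`, part 1, on the contour starting at `c` -/
def Q1 (c : ℚ) (s : ℕ) (ρ : ℝ) : ℝ := ∏ k ∈ Finset.range 8, Qb c (at1 k).1 (at1 k).2 ρ ^ (2 * sg1 s k)

/-- `∏ |q|^(4 σ)` of stage `s`, part 2 (contour starting at `24`) -/
def Q2 (s : ℕ) (ρ : ℝ) : ℝ := ∏ k ∈ Finset.range 34, Qb 24 (at2 k).1 (at2 k).2 ρ ^ (2 * sg2 s k)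

/-- number of factors `C1 N s` in `P_i` -/
def e1 (N i s : ℕ) : ℕ := min N ((i - 24 * N * s) / 24)

/-- number of factors `C2 N s` in `P_(120N+i)` -/
def e2 (N i s : ℕ) : ℕ := min N ((i - 36 * N * s) / 36)

/-- `P_i` for `i < 120 N` -/
def P1 (N i : ℕ) : ℚ[X] := (∏ s ∈ Finset.range 5, C1 N s ^ e1 N i s) * X ^ (i % 24)

/-- `P_(120N+i) = MU * P2 i`, for `i < 360 N` -/
def P2 (N i : ℕ) : ℚ[X] := (∏ s ∈ Finset.range 10, C2 N s ^ e2 N i s) * X ^ (i % 36)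

/-- the basis -/
def PN (N i : ℕ) : ℚ[X] := if i < 120 * N then P1 N i else MU N * P2 N (i - 120 * N)

/-- exponent of two in the bound, times two, shifted by `30000 N` -/
def EX (N i : ℕ) : ℕ :=
  if i < 120 * N then t1 0 * N + ∑ s ∈ Finset.range 5, (t1 (s + 1) - t1 s) * e1 N i s
  else t2 0 * N + ∑ s ∈ Finset.range 10, (t2 (s + 1) - t2 s) * e2 N (i - 120 * N) s

/-- the constant of the archimedean bound -/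
def JJ : ℝ := (240 * Lam + (Real.log 2 / 2) * (6088344 - 480 * 30000)) / 576 - 800 * Real.log 24

end

end Pool.Agent.J6H37.Z13
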