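import Pool.Agent.J6H37.Z13.DefsG
import Pool.Agent.H337R2.Stir

/-!
# Task G1c: the constant
-/

open Polynomial Pool.Agent.H337R2

namespace Pool.Agent.J6H37.Z13

noncomputable section

namespace G1cAux

lemma fac_up (m : ℕ) (hm : 1 ≤ m) :
    (m.factorial : ℝ) ≤ Real.exp 1 * m * Real.exp (xl m - m) := by
  induction m, hm using Nat.le_induction with
  | base =>
    rw [show Real.exp 1 * ((1 : ℕ) : ℝ) * Real.exp (xl (1 : ℕ) - (1 : ℕ)) =
      Real.exp (1 + (xl (1 : ℕ) - (1 : ℕ))) by rw [Real.exp_add]; push_cast; ring]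
    simp [xl]
  | succ m hm ih =>
    have hm0 : (0 : ℝ) < m := by exact_mod_cast hm
    have h1 := up_step hm0
    rw [Nat.factorial_succ]
    push_cast
    have h2 : ((m : ℝ) + 1) * (m.factorial : ℝ) ≤
        (m + 1) * (Real.exp 1 * m * Real.exp (xl m - m)) :=
      mul_le_mul_of_nonneg_left ih (by positivity)
    refine h2.trans ?_
    have h3 : (m : ℝ) * Real.exp (xl m - m) ≤ Real.exp (xl (m + 1) - (m + 1)) := by
      have h4 : (m : ℝ) * Real.exp (xl m - m) = Real.exp (Real.log m + (xl m - m)) := by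
        rw [Real.exp_add, Real.exp_log hm0]
      rw [h4]
      apply Real.exp_le_exp.2
      linarith
    have h5 : (0 : ℝ) ≤ Real.exp 1 * (m + 1) := by positivity
    calc (m + 1) * (Real.exp 1 * m * Real.exp (xl m - m))
        = Real.exp 1 * (m + 1) * (m * Real.exp (xl m - m)) := by ring
      _ ≤ Real.exp 1 * (m + 1) * Real.exp (xl (m + 1) - (m + 1)) :=
        mul_le_mul_of_nonneg_left h3 h5

lemma fac_lo (m : ℕ) : Real.exp (xl m - m) ≤ (m.factorial : ℝ) := by
  induction m with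
  | zero => simp [xl]
  | succ m ih =>
    have hm0 : (0 : ℝ) ≤ m := by positivity
    have h1 := low_step hm0
    rw [Nat.factorial_succ]
    push_cast
    have h2 : Real.exp (xl (m + 1) - (m + 1)) ≤ (m + 1) * Real.exp (xl m - m) := by
      have h4 : ((m : ℝ) + 1) * Real.exp (xl m - m) = Real.exp (Real.log (m + 1) + (xl m - m)) := by
        rw [Real.exp_add, Real.exp_log (by positivity)]
      rw [h4]
      apply Real.exp_le_exp.2
      linarith
    exact h2.trans (mul_le_mul_of_nonneg_left ih (by positivity))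

lemma fac_shift (m k : ℕ) : ((m + k).factorial : ℝ) ≤ ((m + k : ℕ) : ℝ) ^ k * m.factorial := by
  have h := Nat.factorial_mul_pow_le_factorial (m := m) (n := k)
  have h2 : (m + k).factorial ≤ (m + k) ^ k * m.factorial := by
    clear h
    induction k with
    | zero => simp
    | succ k ih =>
      rw [← Nat.add_assoc, Nat.factorial_succ, pow_succ]
      have h3 : (m + k) ^ k ≤ (m + k + 1) ^ k := Nat.pow_le_pow_left (by omega) k
      calc (m + k + 1) * (m + k).factorial ≤ (m + k + 1) * ((m + k) ^ k * m.factorial) :=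
            Nat.mul_le_mul_left _ ih
        _ ≤ (m + k + 1) * ((m + k + 1) ^ k * m.factorial) :=
            Nat.mul_le_mul_left _ (Nat.mul_le_mul_right _ h3)
        _ = _ := by ring
  exact_mod_cast h2

lemma cst_eq (n : ℕ) : ((cstN n : ℚ) : ℝ) =
    ((10 * n).factorial : ℝ) ^ 10 / ((2 * n).factorial : ℝ) ^ 10 := by
  unfold cstN ds10 cst
  simp only [List.map_cons, List.map_nil, List.prod_cons, List.prod_nil]
  push_cast
  norm_num
  congr 1
  ring

end G1cAux

open G1cAux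

/-- the constant -/
theorem G1_cst : ∃ (C : ℝ) (K : ℕ), 0 < C ∧ ∀ N : ℕ, 1 ≤ N → ∀ n : ℕ, n = 24 * N + 1 →
    ((cstN n : ℚ) : ℝ) ^ 2 ≤ C * (n : ℝ) ^ K * Real.exp (Lam * N) * (N : ℝ) ^ (3840 * N) := by
  refine ⟨(Real.exp 1 * 10 ^ 11) ^ 20, 220, by positivity, fun N hN n hn => ?_⟩
  have hN0 : (0 : ℝ) < N := by exact_mod_cast hN
  have hn0 : (1 : ℝ) ≤ n := by
    have : 1 ≤ n := by omega
    exact_mod_cast this
  rw [cst_eq, div_pow, ← pow_mul, ← pow_mul]
  -- upper bound of the numerator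
  have h1 : ((10 * n).factorial : ℝ) ≤ Real.exp 1 * 10 ^ 11 * (n : ℝ) ^ 11 *
      Real.exp (xl ((240 * N : ℕ) : ℝ) - ((240 * N : ℕ) : ℝ)) := by
    have e1 : 10 * n = 240 * N + 10 := by omega
    have h2 := fac_shift (240 * N) 10
    rw [← e1] at h2
    have h3 := fac_up (240 * N) (by omega)
    have h4 : ((240 * N : ℕ) : ℝ) ≤ 10 * n := by
      have : 240 * N ≤ 10 * n := by omega
      exact_mod_cast this
    refine h2.trans ?_
    have h5 : ((240 * N).factorial : ℝ) ≤
        Real.exp 1 * (10 * n) * Real.exp (xl ((240 * N : ℕ) : ℝ) - ((240 * N : ℕ) : ℝ)) := by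
      refine h3.trans ?_
      have : Real.exp 1 * ((240 * N : ℕ) : ℝ) ≤ Real.exp 1 * (10 * n) :=
        mul_le_mul_of_nonneg_left h4 (by positivity)
      exact mul_le_mul_of_nonneg_right this (by positivity)
    calc ((10 * n : ℕ) : ℝ) ^ 10 * ((240 * N).factorial : ℝ)
        ≤ ((10 * n : ℕ) : ℝ) ^ 10 * (Real.exp 1 * (10 * n) *
          Real.exp (xl ((240 * N : ℕ) : ℝ) - ((240 * N : ℕ) : ℝ))) :=
          mul_le_mul_of_nonneg_left h5 (by positivity)
      _ = _ := by push_cast; ring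
  have h2 : Real.exp (xl ((48 * N : ℕ) : ℝ) - ((48 * N : ℕ) : ℝ)) ≤ ((2 * n).factorial : ℝ) := by
    refine (fac_lo (48 * N)).trans ?_
    have : (48 * N).factorial ≤ (2 * n).factorial := Nat.factorial_le (by omega)
    exact_mod_cast this
  have h4 : ((10 * n).factorial : ℝ) ^ (10 * 2) / ((2 * n).factorial : ℝ) ^ (10 * 2) ≤
      (Real.exp 1 * 10 ^ 11 * (n : ℝ) ^ 11 *
      Real.exp (xl ((240 * N : ℕ) : ℝ) - ((240 * N : ℕ) : ℝ))) ^ (10 * 2) /
      (Real.exp (xl ((48 * N : ℕ) : ℝ) - ((48 * N : ℕ) : ℝ))) ^ (10 * 2) :=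
    div_le_div₀ (by positivity) (pow_le_pow_left₀ (by positivity) h1 _) (by positivity)
      (pow_le_pow_left₀ (by positivity) h2 _)
  refine h4.trans (le_of_eq ?_)
  have e3 : ((N : ℝ)) ^ (3840 * N) = Real.exp (3840 * N * Real.log N) := by
    rw [show (3840 : ℝ) * (N : ℝ) * Real.log N = Real.log N * ((3840 * N : ℕ) : ℝ) by
      push_cast; ring, Real.exp_mul, Real.exp_log hN0, Real.rpow_natCast]
  have e5 : ((10 * 2 : ℕ) : ℝ) * (xl ((240 * N : ℕ) : ℝ) - ((240 * N : ℕ) : ℝ)) -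
        ((10 * 2 : ℕ) : ℝ) * (xl ((48 * N : ℕ) : ℝ) - ((48 * N : ℕ) : ℝ)) =
      Lam * N + 3840 * N * Real.log N := by
    unfold xl Lam
    push_cast
    rw [Real.log_mul (by norm_num) hN0.ne', Real.log_mul (by norm_num) hN0.ne']
    ring
  rw [mul_pow, mul_pow, ← pow_mul, ← Real.exp_nat_mul, ← Real.exp_nat_mul, e3, mul_div_assoc,
    ← Real.exp_sub, e5, Real.exp_add]
  norm_num
  ring

end

end Pool.Agent.J6H37.Z13
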