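import Pool.Agent.J6H37.Z13.DefsG
import Pool.Agent.H337R2.PBd

/-!
# Archimedean part: bookkeeping for G1_0 (also usable for G1_1, G1_2)

Products of `|z + m|` on the slanted contours, blocks of zeros and poles.
-/

open Polynomial Pool.Agent.H337R2

namespace Pool.Agent.J6H37.Z13

noncomputable section

lemma G10_qd_nonneg (w r : ℝ) : 0 ≤ qd w r := by unfold qd; positivity

lemma G10_qd_pos {w r : ℝ} (hw : 0 < w) (hr : 0 ≤ r) : 0 < qd w r := by unfold qd; positivity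

lemma G10_qd_mono {w w' r : ℝ} (hw : 0 ≤ w) (h : w ≤ w') (hr : 0 ≤ r) : qd w r ≤ qd w' r := by
  unfold qd
  have h1 : (w + r) ^ 2 ≤ (w' + r) ^ 2 := pow_le_pow_left₀ (by linarith) (by linarith) 2
  linarith

lemma G10_qd_one {w r : ℝ} (hw : 1 ≤ w) (hr : 0 ≤ r) : 1 ≤ qd w r := by
  unfold qd
  have h1 : (1 : ℝ) ^ 2 ≤ (w + r) ^ 2 := pow_le_pow_left₀ (by norm_num) (by linarith) 2
  have h2 : 0 ≤ r ^ 2 := sq_nonneg r
  linarith

lemma G10_qd_scale (N w ρ : ℝ) : qd (N * w) (N * ρ) = N ^ 2 * qd w ρ := by unfold qd; ring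

/-- a shift by `s` costs `(1 + s/w)²` -/
lemma G10_qd_shift {w r s : ℝ} (hw : 0 < w) (hr : 0 ≤ r) (hs : 0 ≤ s) :
    qd (w + s) r ≤ (1 + s / w) ^ 2 * qd w r := by
  unfold qd
  have h0 : 0 ≤ s / w := by positivity
  have h1 : w + s + r ≤ (1 + s / w) * (w + r) := by
    have e : (1 + s / w) * (w + r) = w + r + s + s / w * r := by
      field_simp
      ring
    rw [e]
    nlinarith [mul_nonneg h0 hr]
  have h2 : (w + s + r) ^ 2 ≤ ((1 + s / w) * (w + r)) ^ 2 :=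
    pow_le_pow_left₀ (by linarith) h1 2
  have h3 : r ^ 2 ≤ (1 + s / w) ^ 2 * r ^ 2 := by
    have : (1 : ℝ) ≤ (1 + s / w) ^ 2 := by nlinarith
    nlinarith [sq_nonneg r]
  nlinarith

lemma G10_norm (U : ℕ) (r : ℝ) (k : ℕ) : ‖zv U r + (k : ℂ)‖ ^ 2 = qd ((U : ℝ) + k - 1 / 2) r := by
  have e : zv U r + (k : ℂ) = (((U : ℝ) + k - 1 / 2 + r : ℝ) : ℂ) + (r : ℂ) * Complex.I := by
    unfold zv
    push_cast
    ring
  rw [e, Complex.sq_norm, Complex.normSq_add_mul_I]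
  unfold qd
  ring

/-- numerator of `R` -/
lemma G10_PP (z : ℂ) {n : ℕ} (hn : 1 ≤ n) :
    ‖aeval z (PPn n)‖ = |(cstN n : ℝ)| * ‖2 * z + ((16 * n : ℕ) : ℂ)‖ *
      ((∏ m ∈ Finset.Ioc 0 (2 * n), ‖z + m‖ ^ 5) *
        (∏ m ∈ Finset.Ioc (14 * n - 1) (16 * n - 1), ‖z + m‖ ^ 5)) := by
  have e1 : Finset.Icc 1 (2 * n) = Finset.Ioc 0 (2 * n) := by
    ext m; rw [Finset.mem_Icc, Finset.mem_Ioc]; omega
  have e2 : Finset.Icc (16 * n - 2 * n) (16 * n - 1) = Finset.Ioc (14 * n - 1) (16 * n - 1) := by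
    ext m; rw [Finset.mem_Icc, Finset.mem_Ioc]; omega
  have h1 : PPn n = C (cstN n) * (2 * X + C (16 * n : ℚ)) * NN 5 16 2 n := rfl
  rw [h1, NN_eq 5 16 2 n (by norm_num) (by omega), e1, e2]
  simp only [map_mul, map_prod, map_pow, map_add, aeval_X, aeval_C, norm_mul, norm_prod, norm_pow,
    eq_ratCast, map_natCast, map_ofNat, Complex.norm_ratCast]
  push_cast
  rfl

/-- denominator of `R` -/
lemma G10_QQ (z : ℂ) {n : ℕ} (hn : 1 ≤ n) :
    ‖aeval z (QQ (sN n) (muN n))‖ = ∏ m ∈ Finset.Ioc (3 * n - 1) (13 * n), ‖z + m‖ ^ 10 := by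
  unfold QQ
  simp only [map_prod, map_pow, map_add, aeval_X, norm_prod, norm_pow, map_natCast]
  have h1 := prod_mu 16 2 n ds10 hn (by intro d hd; simp [ds10] at hd; omega)
    (by intro d hd; simp [ds10] at hd; omega) (fun m => ‖z + (m : ℂ)‖)
  have e1 : Finset.Icc (3 * n) (16 * n - 3 * n) = Finset.Ioc (3 * n - 1) (13 * n) := by
    ext m; rw [Finset.mem_Icc, Finset.mem_Ioc]; omega
  refine h1.trans ?_
  simp only [ds10, List.map_cons, List.map_nil, List.prod_cons, List.prod_nil, e1]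
  rw [Finset.prod_pow]
  ring

/-- squares of products over `Ioc a b` on the contour, as products over `range` -/
lemma G10_prod (U : ℕ) (r : ℝ) (a b e : ℕ) :
    (∏ m ∈ Finset.Ioc a b, ‖zv U r + m‖ ^ e) ^ 2 =
      (∏ j ∈ Finset.range (b - a), qd ((U : ℝ) + a + 1 / 2 + j) r) ^ e := by
  have e1 : Finset.Ioc a b = Finset.Ico (a + 1) (b + 1) := by
    ext m; rw [Finset.mem_Ico, Finset.mem_Ioc]; omega
  rw [e1, ← Finset.prod_pow, ← Finset.prod_pow, Finset.prod_Ico_eq_prod_range,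
    show b + 1 - (a + 1) = b - a by omega]
  refine Finset.prod_congr rfl fun j _ => ?_
  rw [← pow_mul, mul_comm e 2, pow_mul, G10_norm]
  congr 2
  push_cast
  ring

/-- the square of `|R|`, multiplied by the poles -/
lemma G10_R (U : ℕ) {n : ℕ} (hn : 1 ≤ n) (r : ℝ) (hr : 0 ≤ r) :
    ‖Rv n (zv U r)‖ ^ 2 *
      (∏ j ∈ Finset.range (10 * n + 1), qd ((U : ℝ) + 3 * n - 1 / 2 + j) r) ^ 10 =
    ((cstN n : ℚ) : ℝ) ^ 2 * ‖2 * zv U r + ((16 * n : ℕ) : ℂ)‖ ^ 2 *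
      ((∏ j ∈ Finset.range (2 * n), qd ((U : ℝ) + 1 / 2 + j) r) ^ 5 *
        (∏ j ∈ Finset.range (2 * n), qd ((U : ℝ) + 14 * n - 1 / 2 + j) r) ^ 5) := by
  have hn' : (1 : ℝ) ≤ n := by exact_mod_cast hn
  have hQ2 : ‖aeval (zv U r) (QQ (sN n) (muN n))‖ ^ 2 =
      (∏ j ∈ Finset.range (10 * n + 1), qd ((U : ℝ) + 3 * n - 1 / 2 + j) r) ^ 10 := by
    rw [G10_QQ _ hn, G10_prod, show 13 * n - (3 * n - 1) = 10 * n + 1 by omega]
    congr 1
    refine Finset.prod_congr rfl fun j _ => ?_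
    congr 1
    rw [Nat.cast_sub (by omega)]
    push_cast
    ring
  have hQpos : 0 < (∏ j ∈ Finset.range (10 * n + 1), qd ((U : ℝ) + 3 * n - 1 / 2 + j) r) ^ 10 := by
    apply pow_pos
    apply Finset.prod_pos
    intro j _
    apply G10_qd_pos _ hr
    have h1 : (0 : ℝ) ≤ U := Nat.cast_nonneg U
    have h2 : (0 : ℝ) ≤ j := Nat.cast_nonneg j
    linarith
  have hP2 : ‖aeval (zv U r) (PPn n)‖ ^ 2 = ((cstN n : ℚ) : ℝ) ^ 2 *
      ‖2 * zv U r + ((16 * n : ℕ) : ℂ)‖ ^ 2 *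
      ((∏ j ∈ Finset.range (2 * n), qd ((U : ℝ) + 1 / 2 + j) r) ^ 5 *
        (∏ j ∈ Finset.range (2 * n), qd ((U : ℝ) + 14 * n - 1 / 2 + j) r) ^ 5) := by
    rw [G10_PP _ hn, mul_pow, mul_pow, mul_pow, G10_prod, G10_prod, sq_abs, Nat.sub_zero,
      show 16 * n - 1 - (14 * n - 1) = 2 * n by omega]
    congr 2
    · congr 1
      refine Finset.prod_congr rfl fun j _ => ?_
      congr 1
      push_cast
      ring
    · congr 1
      refine Finset.prod_congr rfl fun j _ => ?_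
      congr 1
      rw [Nat.cast_sub (by omega)]
      push_cast
      ring
  unfold Rv
  rw [norm_div, div_pow, ← hQ2, ← hP2]
  rw [← hQ2] at hQpos
  exact div_mul_cancel₀ _ hQpos.ne'

/-- blocks of zeros: upper bound by midpoints -/
lemma G10_blockZ (hmid : ∀ (A : ℝ) (L : ℕ) (r : ℝ), 0 ≤ A → 0 ≤ r →
      ∏ j ∈ Finset.range L, qd (A + j + 1 / 2) r ≤ qd (A + L / 2) r ^ L)
    (A r : ℝ) (hA : 0 ≤ A) (hr : 0 ≤ r) (N B : ℕ) :
    ∏ j ∈ Finset.range (B * N), qd (A + 1 / 2 + j) r ≤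
      ∏ b ∈ Finset.range B, qd (A + N * ((b : ℝ) + 1 / 2)) r ^ N := by
  induction B with
  | zero => simp
  | succ B ih =>
    rw [Nat.add_mul, one_mul, Finset.prod_range_add, Finset.prod_range_succ]
    have h1 := hmid (A + B * N) N r (by positivity) hr
    have e1 : ∏ x ∈ Finset.range N, qd (A + 1 / 2 + ((B * N + x : ℕ) : ℝ)) r =
        ∏ j ∈ Finset.range N, qd (A + B * N + j + 1 / 2) r := by
      refine Finset.prod_congr rfl fun x _ => ?_
      congr 1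
      push_cast
      ring
    have e2 : A + (N : ℝ) * ((B : ℝ) + 1 / 2) = A + B * N + N / 2 := by ring
    rw [e1, e2]
    exact mul_le_mul ih h1 (Finset.prod_nonneg fun _ _ => G10_qd_nonneg _ _)
      (Finset.prod_nonneg fun _ _ => pow_nonneg (G10_qd_nonneg _ _) _)

/-- blocks of poles: lower bound by trapezoids -/
lemma G10_blockP (htrap : ∀ (A θ : ℝ) (L : ℕ) (r : ℝ), 0 < A → 0 ≤ r → 1 / 2 ≤ θ →
      (qd A r * qd (A + L) r) ^ L ≤ (∏ j ∈ Finset.range L, qd (A + j + θ) r) ^ 2)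
    (A θ r : ℝ) (hA : 0 < A) (hr : 0 ≤ r) (hθ : 1 / 2 ≤ θ) (N B : ℕ) :
    ∏ b ∈ Finset.range B, (qd (A + N * (b : ℝ)) r * qd (A + N * ((b + 1 : ℕ) : ℝ)) r) ^ N ≤
      (∏ j ∈ Finset.range (B * N), qd (A + θ + j) r) ^ 2 := by
  induction B with
  | zero => simp
  | succ B ih =>
    have e3 : (∏ j ∈ Finset.range ((B + 1) * N), qd (A + θ + j) r) ^ 2 =
        (∏ j ∈ Finset.range (B * N), qd (A + θ + j) r) ^ 2 *
          (∏ x ∈ Finset.range N, qd (A + θ + ((B * N + x : ℕ) : ℝ)) r) ^ 2 := by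
      rw [Nat.add_mul, one_mul, Finset.prod_range_add, mul_pow]
    rw [e3, Finset.prod_range_succ]
    have h1 := htrap (A + N * B) θ N r (by positivity) hr hθ
    have e1 : ∏ x ∈ Finset.range N, qd (A + θ + ((B * N + x : ℕ) : ℝ)) r =
        ∏ j ∈ Finset.range N, qd (A + N * B + j + θ) r := by
      refine Finset.prod_congr rfl fun x _ => ?_
      congr 1
      push_cast
      ring
    have e2 : A + (N : ℝ) * ((B + 1 : ℕ) : ℝ) = A + N * B + N := by push_cast; ring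
    rw [e1, e2]
    exact mul_le_mul ih h1 (pow_nonneg (mul_nonneg (G10_qd_nonneg _ _) (G10_qd_nonneg _ _)) _)
      (pow_nonneg (Finset.prod_nonneg fun _ _ => G10_qd_nonneg _ _) _)

/-- telescoping products of neighbours -/
lemma G10_tele (g : ℕ → ℝ) (a B : ℕ) :
    ∏ b ∈ Finset.range (B + 1), (g (a + b) * g (a + (b + 1))) =
      g a * (∏ b ∈ Finset.Ico (a + 1) (a + B + 1), g b) ^ 2 * g (a + (B + 1)) := by
  induction B with
  | zero => simp
  | succ B ih =>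
    rw [Finset.prod_range_succ, ih, show a + (B + 1) + 1 = (a + B + 1) + 1 by omega,
      Finset.prod_Ico_succ_top (by omega : a + 1 ≤ a + B + 1)]
    have e1 : a + (B + 1) = a + B + 1 := by omega
    rw [e1]
    ring

/-- polynomial growth is absorbed by an exponential -/
lemma G10_absorb (c : ℝ) (hc : 0 < c) (K : ℕ) : ∃ C : ℝ, 0 < C ∧ ∀ ρ : ℝ, 0 ≤ ρ →
    (1 + ρ) ^ K ≤ C * Real.exp (c * ρ) := by
  refine ⟨(K.factorial : ℝ) / c ^ K * Real.exp c, by positivity, fun ρ hρ => ?_⟩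
  have h1 := Real.pow_div_factorial_le_exp (c * (1 + ρ)) (by positivity) K
  have hf : (0 : ℝ) < K.factorial := by exact_mod_cast Nat.factorial_pos K
  rw [mul_pow, div_le_iff₀ hf] at h1
  have e : Real.exp (c * (1 + ρ)) = Real.exp c * Real.exp (c * ρ) := by
    rw [← Real.exp_add]; ring_nf
  rw [e] at h1
  have hcK : 0 < c ^ K := by positivity
  have h2 : (1 + ρ) ^ K = (c ^ K * (1 + ρ) ^ K) / c ^ K := by field_simp
  rw [h2, div_le_iff₀ hcK]
  calc c ^ K * (1 + ρ) ^ K ≤ Real.exp c * Real.exp (c * ρ) * K.factorial := h1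
    _ = (K.factorial : ℝ) / c ^ K * Real.exp c * Real.exp (c * ρ) * c ^ K := by field_simp

end

end Pool.Agent.J6H37.Z13
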