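import Pool.Agent.J6H37.Z13.G3L

set_option autoImplicit false

/-! # G3A: numerical certificate (break points in units of `1/80`) -/

namespace Pool.Agent.J6H37.Z13

namespace G3A

open G3L

/-- break points -/
def br : List ℕ := [
  28, 42, 58, 81, 122, 181, 231, 272, 312, 358, 415, 489, 558, 610, 664, 729, 809, 875, 933,
  1007, 1124, 1207, 1272, 1347, 1444, 1555, 1653, 1776, 1880, 1971, 2079, 2270, 2782, 4447,
  10956, 46963, 80000]

theorem c1 : chkL PL0 stA lt1 (0 :: br) = true := by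
  decide +kernel

theorem c2 : chkT PL0 stA lt1 ((0 :: br).getLast (by simp)) 4 = true := by
  decide +kernel

end G3A

theorem G3_A (s : ℕ) (hs : s ≤ 5) (ρ : ℝ) (hρ : 0 ≤ ρ) :
    2 ^ 30000 * (Real.exp (-(314 / 25) * ρ) * GZ0 ρ * ∏ s' ∈ Finset.range s, Q1 0 s' ρ) ≤ 2 ^ t1 s * GP0 ρ :=
  G3L.mainA G3A.br (by simp [G3A.br]) G3A.c1 G3A.c2 s hs ρ hρ

end Pool.Agent.J6H37.Z13
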