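import Pool.Agent.J6H37.Z13.G3L

set_option autoImplicit false

/-! # G3C: numerical certificate (break points in units of `1/80`) -/

namespace Pool.Agent.J6H37.Z13

namespace G3C

open G3L

/-- break points -/
def br : List ℕ := [
  36, 77, 120, 163, 205, 257, 298, 335, 388, 446, 492, 554, 636, 682, 723, 769, 833, 868, 911,
  980, 1020, 1058, 1110, 1194, 1234, 1270, 1313, 1390, 1458, 1492, 1522, 1560, 1631, 1664, 1694,
  1733, 1795, 1847, 1875, 1905, 1945, 2018, 2103, 2139, 2173, 2215, 2271, 2331, 2375, 2446, 2498,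
  2531, 2569, 2619, 2711, 2740, 2771, 2804, 2849, 2948, 2984, 3016, 3055, 3096, 3156, 3278, 3322,
  3366, 3407, 3449, 3513, 3608, 3643, 3681, 3731, 3834, 3883, 3923, 3969, 4020, 4113, 4286, 4337,
  4386, 4437, 4517, 4537, 4566, 4607, 4666, 4768, 4800, 4846, 4927, 5095, 5148, 5211, 5285, 5416,
  5445, 5483, 5527, 5572, 5634, 5749, 5806, 5919, 5968, 6028, 6111, 6270, 6318, 6384, 6464, 6626,
  6930, 7028, 7122, 7215, 7332, 7576, 7766, 7864, 7986, 8121, 8313, 8680, 8792, 8935, 9076, 9218,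
  9410, 9772, 9886, 10025, 10197, 10506, 11343, 13871, 21645, 49422, 80000]

theorem c1 : chkL PL1 stC lt2 (0 :: br) = true := by
  decide +kernel

theorem c2 : chkT PL1 stC lt2 ((0 :: br).getLast (by simp)) 4 = true := by
  decide +kernel

end G3C

theorem G3_C (s : ℕ) (hs : s ≤ 10) (ρ : ℝ) (hρ : 0 ≤ ρ) :
    2 ^ 30000 * (Real.exp (-(314 / 25) * ρ) * GZ2 ρ * ∏ s' ∈ Finset.range s, Q2 s' ρ) ≤ 2 ^ t2 s * GP1 ρ :=
  G3L.mainC G3C.br (by simp [G3C.br]) G3C.c1 G3C.c2 s hs ρ hρ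

end Pool.Agent.J6H37.Z13
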