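import Pool.Agent.J6H37.Z13.DefsS

set_option autoImplicit false

/-!
# G3L: library for the numerical certificates `G3_A`, `G3_B`, `G3_C`

A factor is `2 ρ² + 2 σ ρ + τ`, `σ = (p - q) / 80`, `τ = t / 6400`.  On a cell `[x₀, x₁]` the factors
of the numerator are bounded by `f(x₀) exp ((ρ - x₀) u)` and those of the denominator (poles)
from below by `f(x₀) exp ((ρ - x₀) l)`; slopes are computed with the scale `K = 25 * 10 ^ 6`.
-/

namespace Pool.Agent.J6H37.Z13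

namespace G3L

/-- the factor `2 ρ² + 2 (p - q) ρ / 80 + t / 6400` -/
structure Fac where
  p : ℕ
  q : ℕ
  t : ℕ

/-- factors with a common multiplicity -/
abbrev Grp := List Fac × ℕ

/-! ### The checker -/

/-- `6400 f (X / 80)` -/
def fv (y : Fac) (X : ℕ) : ℕ := 2 * X ^ 2 + 2 * y.p * X + y.t - 2 * y.q * X

def gp (X : ℕ) : List Fac → ℕ
  | [] => 1
  | y :: l => fv y X * gp X l

def gu (X0 X1 : ℕ) : List Fac → ℕ
  | [] => 0
  | y :: l => (4000000000 * (X0 + X1 + y.p) / fv y X0 + 1) + gu X0 X1 l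

def gn (X0 : ℕ) : List Fac → ℕ
  | [] => 0
  | y :: l => 4000000000 * y.q / fv y X0 + gn X0 l

def gl (X0 X1 : ℕ) : List Fac → ℕ
  | [] => 0
  | y :: l => 4000000000 * (X0 + X1 + y.p) / fv y X1 + gl X0 X1 l

def pv (X : ℕ) : List Grp → ℕ
  | [] => 1
  | g :: l => gp X g.1 ^ g.2 * pv X l

def dg : List Grp → ℕ
  | [] => 0
  | g :: l => g.1.length * g.2 + dg l

def pu (X0 X1 : ℕ) : List Grp → ℕ
  | [] => 0
  | g :: l => g.2 * gu X0 X1 g.1 + pu X0 X1 l

def pn (X0 : ℕ) : List Grp → ℕ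
  | [] => 0
  | g :: l => g.2 * gn X0 g.1 + pn X0 l

def pl (X0 X1 : ℕ) : List Grp → ℕ
  | [] => 0
  | g :: l => g.2 * gl X0 X1 g.1 + pl X0 X1 l

/-- number of bits gained by the slope over the cell -/
def kk (X0 X1 su sn sl : ℕ) : ℕ := (su - (sn + sl + 314000000)) * (X1 - X0) / 1386200000 + 1

/-- number of bits of `exp (-(314/25) X / 80)` -/
def jj (X : ℕ) : ℕ := 15700 * X / 69315

/-- all the stages at once -/
def chkS (X0 X1 P0 dP sl : ℕ) : List (List Grp) → List ℕ → ℕ → ℕ → ℕ → ℕ → Bool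
  | L :: st, t :: ts, N, dN, su, sn =>
    Nat.ble ((pv X0 L * N) * 2 ^ (30000 + kk X0 X1 (pu X0 X1 L + su) (pn X0 L + sn) sl) * 6400 ^ dP)
      (2 ^ (t + jj X0) * P0 * 6400 ^ (dg L + dN)) &&
    chkS X0 X1 P0 dP sl st ts (pv X0 L * N) (dg L + dN) (pu X0 X1 L + su) (pn X0 L + sn)
  | _, _, _, _, _, _ => true

/-- all the factors are positive at `X / 80` -/
def posG (X : ℕ) (L : List Grp) : Bool := L.all fun g => g.1.all fun y => Nat.blt 0 (fv y X)

def chkC (P : List Grp) (st : List (List Grp)) (ts : List ℕ) (X0 X1 : ℕ) : Bool :=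
  Nat.ble X0 X1 && chkS X0 X1 (pv X0 P) (dg P) (pl X0 X1 P) st ts 1 0 0 0 && st.all (posG X0)

/-- consecutive cells -/
def chkL (P : List Grp) (st : List (List Grp)) (ts : List ℕ) : List ℕ → Bool
  | [] => true
  | X0 :: l => (match l with
    | [] => true
    | X1 :: _ => chkC P st ts X0 X1) && chkL P st ts l

def goodF (y : Fac) : Bool := Nat.ble (y.p ^ 2 + y.q ^ 2) (2 * y.t + 2 * y.p * y.q)
def poleF (y : Fac) : Bool := Nat.beq y.q 0 && Nat.beq y.t (y.p ^ 2) && Nat.blt 0 y.p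
def goodG (L : List Grp) : Bool := L.all fun g => g.1.all goodF
def poleG (L : List Grp) : Bool := L.all fun g => g.1.all poleF
/-- tail condition at `X = 80000`, slope `4 / 1000` -/
def tailF (X V : ℕ) (y : Fac) : Bool :=
  Nat.ble (51200000000) (fv y X * V ^ 2) &&
    Nat.ble (80000 * (4 * X + 2 * y.p)) (fv y X * V + 160000 * y.q)
def tailG (X V : ℕ) (L : List Grp) : Bool := L.all fun g => g.1.all (tailF X V)

/-! ### Real side -/

noncomputable def fr (y : Fac) (ρ : ℝ) : ℝ :=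
  2 * ρ ^ 2 + 2 * (((y.p : ℝ) - y.q) / 80) * ρ + y.t / 6400

noncomputable def fg (l : List Fac) (ρ : ℝ) : ℝ := (l.map fun y => fr y ρ).prod

noncomputable def FP (L : List Grp) (ρ : ℝ) : ℝ := (L.map fun g => fg g.1 ρ ^ g.2).prod

def GoodF (y : Fac) : Prop := y.p ^ 2 + y.q ^ 2 ≤ 2 * y.t + 2 * y.p * y.q
def GoodL (l : List Fac) : Prop := ∀ y ∈ l, GoodF y
def GoodG (L : List Grp) : Prop := ∀ g ∈ L, GoodL g.1

theorem fr_nn {y : Fac} (h : GoodF y) (ρ : ℝ) : 0 ≤ fr y ρ := by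
  have h1 : (y.p : ℝ) ^ 2 + (y.q : ℝ) ^ 2 ≤ 2 * y.t + 2 * y.p * y.q := by exact_mod_cast h
  have key : 12800 * fr y ρ = (160 * ρ + ((y.p : ℝ) - y.q)) ^ 2 +
      (2 * y.t + 2 * y.p * y.q - ((y.p : ℝ) ^ 2 + (y.q : ℝ) ^ 2)) := by
    unfold fr
    ring
  nlinarith [sq_nonneg (160 * ρ + ((y.p : ℝ) - y.q))]

theorem fv_cast {y : Fac} (h : GoodF y) (X : ℕ) : ((fv y X : ℕ) : ℝ) = 6400 * fr y ((X : ℝ) / 80) := by
  have h1 := fr_nn h ((X : ℝ) / 80)
  have h2 : (2 * y.q * X : ℝ) ≤ 2 * X ^ 2 + 2 * y.p * X + y.t := by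
    unfold fr at h1
    have : 2 * ((X : ℝ) / 80) ^ 2 + 2 * (((y.p : ℝ) - y.q) / 80) * ((X : ℝ) / 80) + y.t / 6400 =
      (2 * (X : ℝ) ^ 2 + 2 * y.p * X + y.t - 2 * y.q * X) / 6400 := by ring
    rw [this] at h1
    have := (le_div_iff₀ (by norm_num : (0 : ℝ) < 6400)).1 h1
    linarith
  have h3 : 2 * y.q * X ≤ 2 * X ^ 2 + 2 * y.p * X + y.t := by exact_mod_cast h2
  unfold fv
  rw [Nat.cast_sub h3]
  unfold fr
  push_cast
  ring

theorem floor_le (a b : ℕ) : ((a / b : ℕ) : ℝ) ≤ (a : ℝ) / b := Nat.cast_div_le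

theorem le_ceil (a b : ℕ) (hb : 0 < b) : (a : ℝ) / b ≤ ((a / b + 1 : ℕ) : ℝ) := by
  rw [div_le_iff₀ (by exact_mod_cast hb)]
  have h := Nat.lt_div_mul_add (a := a) hb
  have h2 : a ≤ (a / b + 1) * b := by
    rw [add_mul, one_mul]
    exact h.le
  exact_mod_cast h2

/-- the scale of the slopes -/
noncomputable abbrev KS : ℝ := 25000000

theorem fr_up {y : Fac} (h : GoodF y) {X0 X1 : ℕ} (hFpos : 0 < fv y X0) {ρ : ℝ}
    (h0 : (X0 : ℝ) / 80 ≤ ρ) (h1 : ρ ≤ (X1 : ℝ) / 80) :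
    fr y ρ ≤ fr y ((X0 : ℝ) / 80) * Real.exp ((ρ - (X0 : ℝ) / 80) *
      ((((4000000000 * (X0 + X1 + y.p) / fv y X0 + 1 : ℕ) : ℝ) -
        ((4000000000 * y.q / fv y X0 : ℕ) : ℝ)) / KS)) := by
  set x0 : ℝ := (X0 : ℝ) / 80 with hx0
  have hF : ((fv y X0 : ℕ) : ℝ) = 6400 * fr y x0 := fv_cast h X0
  have hFpos' : (0 : ℝ) < fv y X0 := by exact_mod_cast hFpos
  have hf0 : 0 < fr y x0 := by
    rw [hF] at hFpos'
    linarith
  set v : ℝ := (2 * (x0 + (X1 : ℝ) / 80) + 2 * (((y.p : ℝ) - y.q) / 80)) / fr y x0 with hv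
  have e1 : fr y ρ ≤ fr y x0 * (1 + (ρ - x0) * v) := by
    have : fr y x0 * (1 + (ρ - x0) * v) - fr y ρ = 2 * (ρ - x0) * ((X1 : ℝ) / 80 - ρ) := by
      rw [hv]
      field_simp
      unfold fr
      ring
    nlinarith [mul_nonneg (sub_nonneg.2 h0) (sub_nonneg.2 h1)]
  have e2 : 1 + (ρ - x0) * v ≤ Real.exp ((ρ - x0) * v) := by
    have := Real.add_one_le_exp ((ρ - x0) * v)
    linarith
  have hve : v = ((4000000000 * (X0 + X1 + y.p) : ℝ) / (fv y X0 : ℕ) -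
      (4000000000 * y.q : ℝ) / (fv y X0 : ℕ)) / KS := by
    rw [hF, hv, hx0]
    unfold KS
    field_simp
    ring
  have e3 : v ≤ (((4000000000 * (X0 + X1 + y.p) / fv y X0 + 1 : ℕ) : ℝ) -
        ((4000000000 * y.q / fv y X0 : ℕ) : ℝ)) / KS := by
    rw [hve]
    have a1 := le_ceil (4000000000 * (X0 + X1 + y.p)) (fv y X0) hFpos
    have a2 := floor_le (4000000000 * y.q) (fv y X0)
    push_cast at a1 a2 ⊢
    unfold KS
    apply div_le_div_of_nonneg_right _ (by norm_num)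
    linarith
  refine e1.trans (mul_le_mul_of_nonneg_left (e2.trans ?_) hf0.le)
  exact Real.exp_le_exp.2 (mul_le_mul_of_nonneg_left e3 (sub_nonneg.2 h0))

def PoleF (y : Fac) : Prop := y.q = 0 ∧ y.t = y.p ^ 2 ∧ 0 < y.p
def PoleL (l : List Fac) : Prop := ∀ y ∈ l, PoleF y
def PoleG (L : List Grp) : Prop := ∀ g ∈ L, PoleL g.1

theorem PoleF.good {y : Fac} (h : PoleF y) : GoodF y := by
  obtain ⟨h1, h2, h3⟩ := h
  unfold GoodF
  rw [h1, h2]
  have := pow_pos h3 2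
  nlinarith

theorem PoleF.pos {y : Fac} (h : PoleF y) (ρ : ℝ) : 0 < fr y ρ := by
  obtain ⟨h1, h2, h3⟩ := h
  have h4 : (0 : ℝ) < y.p := by exact_mod_cast h3
  have key : 12800 * fr y ρ = (160 * ρ + (y.p : ℝ)) ^ 2 + (y.p : ℝ) ^ 2 := by
    unfold fr
    rw [h1, h2]
    push_cast
    ring
  nlinarith [sq_nonneg (160 * ρ + (y.p : ℝ)), pow_pos h4 2]

theorem fr_lo {y : Fac} (h : PoleF y) {X0 X1 : ℕ} {ρ : ℝ} (h0 : (X0 : ℝ) / 80 ≤ ρ)
    (h1 : ρ ≤ (X1 : ℝ) / 80) :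
    fr y ((X0 : ℝ) / 80) * Real.exp ((ρ - (X0 : ℝ) / 80) *
      (((4000000000 * (X0 + X1 + y.p) / fv y X1 : ℕ) : ℝ) / KS)) ≤ fr y ρ := by
  have hg := h.good
  have hpos := h.pos
  obtain ⟨hq, ht, hp⟩ := h
  set x0 : ℝ := (X0 : ℝ) / 80 with hx0
  set x1 : ℝ := (X1 : ℝ) / 80 with hx1
  set w : ℝ := (y.p : ℝ) / 80 with hw
  have hx0n : 0 ≤ x0 := by rw [hx0]; positivity
  have hwn : 0 ≤ w := by rw [hw]; positivity
  have hρ : 0 ≤ ρ := hx0n.trans h0
  have hf : ∀ x : ℝ, fr y x = 2 * x ^ 2 + 2 * w * x + w ^ 2 := by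
    intro x
    unfold fr
    rw [hq, ht, hw]
    push_cast
    ring
  have hfρ := hpos ρ
  have hf1 := hpos x1
  have hf0 := hpos x0
  have hF : ((fv y X1 : ℕ) : ℝ) = 6400 * fr y x1 := fv_cast hg X1
  have hFpos' : (0 : ℝ) < fv y X1 := by rw [hF]; positivity
  set l : ℝ := 2 * (x0 + x1 + w) / fr y x1 with hl
  set u : ℝ := 2 * (x0 + ρ + w) / fr y ρ with hu
  have e0 : l ≤ u := by
    rw [hl, hu, div_le_div_iff₀ hf1 hfρ, hf, hf]
    have : 2 * (x0 + ρ + w) * (2 * x1 ^ 2 + 2 * w * x1 + w ^ 2) -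
        2 * (x0 + x1 + w) * (2 * ρ ^ 2 + 2 * w * ρ + w ^ 2) =
        2 * (x1 - ρ) * ((x0 + ρ + w) * (2 * x1 + 2 * ρ + 2 * w) - (2 * ρ ^ 2 + 2 * w * ρ + w ^ 2)) := by
      ring
    have h3 : 0 ≤ (x0 + ρ + w) * (2 * x1 + 2 * ρ + 2 * w) - (2 * ρ ^ 2 + 2 * w * ρ + w ^ 2) := by
      have hx1n : 0 ≤ x1 := hρ.trans h1
      have : (x0 + ρ + w) * (2 * x1 + 2 * ρ + 2 * w) - (2 * ρ ^ 2 + 2 * w * ρ + w ^ 2) =
        x0 * (2 * x1 + 2 * ρ + 2 * w) + (ρ + w) * (2 * x1) + 2 * w * ρ + w ^ 2 := by ring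
      rw [this]
      positivity
    nlinarith [mul_nonneg (sub_nonneg.2 h1) h3]
  have e1 : fr y x0 = fr y ρ * (1 - (ρ - x0) * u) := by
    rw [hu]
    field_simp
    rw [hf, hf]
    ring
  have e2 : 1 - (ρ - x0) * u ≤ Real.exp (-((ρ - x0) * u)) := by
    have := Real.add_one_le_exp (-((ρ - x0) * u))
    linarith
  have hle : l = ((4000000000 * (X0 + X1 + y.p) : ℝ) / (fv y X1 : ℕ)) / KS := by
    rw [hF, hl, hx0, hx1, hw]
    unfold KS
    field_simp
    ring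
  have e3 : (((4000000000 * (X0 + X1 + y.p) / fv y X1 : ℕ) : ℝ) / KS) ≤ l := by
    rw [hle]
    have a2 := floor_le (4000000000 * (X0 + X1 + y.p)) (fv y X1)
    push_cast at a2 ⊢
    unfold KS
    exact div_le_div_of_nonneg_right a2 (by norm_num)
  have e4 : (ρ - x0) * (((4000000000 * (X0 + X1 + y.p) / fv y X1 : ℕ) : ℝ) / KS) ≤ (ρ - x0) * u :=
    mul_le_mul_of_nonneg_left (e3.trans e0) (sub_nonneg.2 h0)
  calc fr y x0 * Real.exp ((ρ - x0) * (((4000000000 * (X0 + X1 + y.p) / fv y X1 : ℕ) : ℝ) / KS))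
      ≤ fr y x0 * Real.exp ((ρ - x0) * u) :=
        mul_le_mul_of_nonneg_left (Real.exp_le_exp.2 e4) hf0.le
    _ = fr y ρ * (1 - (ρ - x0) * u) * Real.exp ((ρ - x0) * u) := by rw [← e1]
    _ ≤ fr y ρ * Real.exp (-((ρ - x0) * u)) * Real.exp ((ρ - x0) * u) := by
        apply mul_le_mul_of_nonneg_right _ (Real.exp_pos _).le
        exact mul_le_mul_of_nonneg_left e2 hfρ.le
    _ = fr y ρ := by
        rw [mul_assoc, ← Real.exp_add]
        simp

/-! ### Products -/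

theorem fg_nn {l : List Fac} (h : GoodL l) (ρ : ℝ) : 0 ≤ fg l ρ := by
  induction l with
  | nil => simp [fg]
  | cons y l ih =>
    have h1 := fr_nn (h y (by simp)) ρ
    have h2 := ih (fun z hz => h z (by simp [hz]))
    unfold fg at h2 ⊢
    rw [List.map_cons, List.prod_cons]
    exact mul_nonneg h1 h2

theorem fg_cons (y : Fac) (l : List Fac) (ρ : ℝ) : fg (y :: l) ρ = fr y ρ * fg l ρ := by
  unfold fg
  rw [List.map_cons, List.prod_cons]

theorem gp_cast {l : List Fac} (h : GoodL l) (X : ℕ) :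
    ((gp X l : ℕ) : ℝ) = 6400 ^ l.length * fg l ((X : ℝ) / 80) := by
  induction l with
  | nil => simp [gp, fg]
  | cons y l ih =>
    rw [fg_cons, gp, Nat.cast_mul, ih (fun z hz => h z (by simp [hz])), fv_cast (h y (by simp)),
      List.length_cons, pow_succ]
    ring

theorem fg_up {l : List Fac} (h : GoodL l) {X0 X1 : ℕ} (hp : ∀ y ∈ l, 0 < fv y X0) {ρ : ℝ}
    (h0 : (X0 : ℝ) / 80 ≤ ρ) (h1 : ρ ≤ (X1 : ℝ) / 80) :
    fg l ρ ≤ fg l ((X0 : ℝ) / 80) * Real.exp ((ρ - (X0 : ℝ) / 80) *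
      ((((gu X0 X1 l : ℕ) : ℝ) - ((gn X0 l : ℕ) : ℝ)) / KS)) := by
  induction l with
  | nil => simp [fg, gu, gn]
  | cons y l ih =>
    have hy := h y (by simp)
    have hl : GoodL l := fun z hz => h z (by simp [hz])
    have a1 := fr_up hy (hp y (by simp)) h0 h1
    have a2 := ih hl (fun z hz => hp z (by simp [hz]))
    rw [fg_cons, fg_cons, gu, gn, Nat.cast_add _ (gu X0 X1 l), Nat.cast_add _ (gn X0 l)]
    set A : ℝ := ((4000000000 * (X0 + X1 + y.p) / fv y X0 + 1 : ℕ) : ℝ)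
    set B : ℝ := ((4000000000 * y.q / fv y X0 : ℕ) : ℝ)
    have e : (ρ - (X0 : ℝ) / 80) * ((A + ((gu X0 X1 l : ℕ) : ℝ) - (B + ((gn X0 l : ℕ) : ℝ))) / KS) =
        (ρ - (X0 : ℝ) / 80) * ((A - B) / KS) +
        (ρ - (X0 : ℝ) / 80) * ((((gu X0 X1 l : ℕ) : ℝ) - ((gn X0 l : ℕ) : ℝ)) / KS) := by
      ring
    rw [e, Real.exp_add]
    refine (mul_le_mul a1 a2 (fg_nn hl ρ) (mul_nonneg (fr_nn hy _) (Real.exp_pos _).le)).trans
      (le_of_eq ?_)
    ring

theorem fg_lo {l : List Fac} (h : PoleL l) {X0 X1 : ℕ} {ρ : ℝ} (h0 : (X0 : ℝ) / 80 ≤ ρ)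
    (h1 : ρ ≤ (X1 : ℝ) / 80) :
    fg l ((X0 : ℝ) / 80) * Real.exp ((ρ - (X0 : ℝ) / 80) * (((gl X0 X1 l : ℕ) : ℝ) / KS)) ≤
      fg l ρ := by
  induction l with
  | nil => simp [fg, gl]
  | cons y l ih =>
    have hy := h y (by simp)
    have hl : PoleL l := fun z hz => h z (by simp [hz])
    have hg : GoodL l := fun z hz => (hl z hz).good
    have a1 := fr_lo hy h0 h1
    have a2 := ih hl
    rw [fg_cons, fg_cons, gl, Nat.cast_add _ (gl X0 X1 l)]
    set A : ℝ := ((4000000000 * (X0 + X1 + y.p) / fv y X1 : ℕ) : ℝ)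
    have e : (ρ - (X0 : ℝ) / 80) * ((A + ((gl X0 X1 l : ℕ) : ℝ)) / KS) =
        (ρ - (X0 : ℝ) / 80) * (A / KS) +
        (ρ - (X0 : ℝ) / 80) * (((gl X0 X1 l : ℕ) : ℝ) / KS) := by
      ring
    rw [e, Real.exp_add]
    refine (le_of_eq ?_).trans (mul_le_mul a1 a2 (mul_nonneg (fg_nn hg _) (Real.exp_pos _).le)
      (fr_nn hy.good ρ))
    ring

theorem FP_cons (g : Grp) (L : List Grp) (ρ : ℝ) : FP (g :: L) ρ = fg g.1 ρ ^ g.2 * FP L ρ := by
  unfold FP
  rw [List.map_cons, List.prod_cons]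

theorem FP_append (L L' : List Grp) (ρ : ℝ) : FP (L ++ L') ρ = FP L ρ * FP L' ρ := by
  unfold FP
  rw [List.map_append, List.prod_append]

theorem FP_nn {L : List Grp} (h : GoodG L) (ρ : ℝ) : 0 ≤ FP L ρ := by
  induction L with
  | nil => simp [FP]
  | cons g L ih =>
    rw [FP_cons]
    exact mul_nonneg (pow_nonneg (fg_nn (h g (by simp)) ρ) _) (ih fun z hz => h z (by simp [hz]))

theorem pv_cast {L : List Grp} (h : GoodG L) (X : ℕ) :
    ((pv X L : ℕ) : ℝ) = 6400 ^ dg L * FP L ((X : ℝ) / 80) := by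
  induction L with
  | nil => simp [pv, FP, dg]
  | cons g L ih =>
    rw [FP_cons, pv, dg, Nat.cast_mul, Nat.cast_pow, ih (fun z hz => h z (by simp [hz])),
      gp_cast (h g (by simp)), pow_add, mul_pow, pow_mul]
    ring

theorem FP_up {L : List Grp} (h : GoodG L) {X0 X1 : ℕ} (hp : ∀ g ∈ L, ∀ y ∈ g.1, 0 < fv y X0)
    {ρ : ℝ} (h0 : (X0 : ℝ) / 80 ≤ ρ) (h1 : ρ ≤ (X1 : ℝ) / 80) :
    FP L ρ ≤ FP L ((X0 : ℝ) / 80) * Real.exp ((ρ - (X0 : ℝ) / 80) *
      ((((pu X0 X1 L : ℕ) : ℝ) - ((pn X0 L : ℕ) : ℝ)) / KS)) := by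
  induction L with
  | nil => simp [FP, pu, pn]
  | cons g L ih =>
    have hy := h g (by simp)
    have hl : GoodG L := fun z hz => h z (by simp [hz])
    have a1 := pow_le_pow_left₀ (fg_nn hy ρ) (fg_up hy (hp g (by simp)) h0 h1) g.2
    have a2 := ih hl (fun z hz => hp z (by simp [hz]))
    rw [mul_pow, ← Real.exp_nat_mul] at a1
    rw [FP_cons, FP_cons, pu, pn, Nat.cast_add, Nat.cast_add, Nat.cast_mul, Nat.cast_mul]
    have e : (ρ - (X0 : ℝ) / 80) * ((((g.2 : ℕ) : ℝ) * ((gu X0 X1 g.1 : ℕ) : ℝ) +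
        ((pu X0 X1 L : ℕ) : ℝ) - (((g.2 : ℕ) : ℝ) * ((gn X0 g.1 : ℕ) : ℝ) +
        ((pn X0 L : ℕ) : ℝ))) / KS) =
        ((g.2 : ℕ) : ℝ) * ((ρ - (X0 : ℝ) / 80) *
          ((((gu X0 X1 g.1 : ℕ) : ℝ) - ((gn X0 g.1 : ℕ) : ℝ)) / KS)) +
        (ρ - (X0 : ℝ) / 80) * ((((pu X0 X1 L : ℕ) : ℝ) - ((pn X0 L : ℕ) : ℝ)) / KS) := by
      ring
    rw [e, Real.exp_add]
    refine (mul_le_mul a1 a2 (FP_nn hl ρ)
      (mul_nonneg (pow_nonneg (fg_nn hy _) _) (Real.exp_pos _).le)).trans (le_of_eq ?_)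
    ring

theorem PoleG.good {L : List Grp} (h : PoleG L) : GoodG L :=
  fun g hg y hy => (h g hg y hy).good

theorem FP_lo {L : List Grp} (h : PoleG L) {X0 X1 : ℕ} {ρ : ℝ} (h0 : (X0 : ℝ) / 80 ≤ ρ)
    (h1 : ρ ≤ (X1 : ℝ) / 80) :
    FP L ((X0 : ℝ) / 80) * Real.exp ((ρ - (X0 : ℝ) / 80) * (((pl X0 X1 L : ℕ) : ℝ) / KS)) ≤
      FP L ρ := by
  induction L with
  | nil => simp [FP, pl]
  | cons g L ih =>
    have hy := h g (by simp)
    have hyg : GoodL g.1 := fun y hy' => (hy y hy').good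
    have hl : PoleG L := fun z hz => h z (by simp [hz])
    have a1 := pow_le_pow_left₀ (mul_nonneg (fg_nn hyg _) (Real.exp_pos _).le)
      (fg_lo hy h0 h1) g.2
    have a2 := ih hl
    rw [mul_pow, ← Real.exp_nat_mul] at a1
    rw [FP_cons, FP_cons, pl, Nat.cast_add, Nat.cast_mul]
    have e : (ρ - (X0 : ℝ) / 80) * ((((g.2 : ℕ) : ℝ) * ((gl X0 X1 g.1 : ℕ) : ℝ) +
        ((pl X0 X1 L : ℕ) : ℝ)) / KS) =
        ((g.2 : ℕ) : ℝ) * ((ρ - (X0 : ℝ) / 80) * (((gl X0 X1 g.1 : ℕ) : ℝ) / KS)) +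
        (ρ - (X0 : ℝ) / 80) * (((pl X0 X1 L : ℕ) : ℝ) / KS) := by
      ring
    rw [e, Real.exp_add]
    refine (le_of_eq ?_).trans (mul_le_mul a1 a2
      (mul_nonneg (FP_nn hl.good _) (Real.exp_pos _).le) (pow_nonneg (fg_nn hyg ρ) _))
    ring

/-! ### Cells -/

/-- the check of one cell and one stage -/
def Chk (X0 X1 : ℕ) (P A : List Grp) (t : ℕ) : Prop :=
  pv X0 A * 2 ^ (30000 + kk X0 X1 (pu X0 X1 A) (pn X0 A) (pl X0 X1 P)) * 6400 ^ dg P ≤
    2 ^ (t + jj X0) * pv X0 P * 6400 ^ dg A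

theorem exp_le_two_pow {z : ℝ} {k : ℕ} (h : z ≤ k * Real.log 2) : Real.exp z ≤ 2 ^ k := by
  refine (Real.exp_le_exp.2 h).trans (le_of_eq ?_)
  rw [Real.exp_nat_mul, Real.exp_log (by norm_num)]

theorem kk_spec (X0 X1 su sn sl : ℕ) (hX : X0 ≤ X1) {δ : ℝ} (h0 : 0 ≤ δ)
    (h1 : δ ≤ ((X1 : ℝ) - X0) / 80) :
    Real.exp (δ * (((su : ℝ) - sn) / KS - sl / KS - 314 / 25)) ≤ 2 ^ kk X0 X1 su sn sl := by
  apply exp_le_two_pow
  have hkk : kk X0 X1 su sn sl =
    (su - (sn + sl + 314000000)) * (X1 - X0) / 1386200000 + 1 := by rw [kk]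
  obtain ⟨n, hn⟩ : ∃ n : ℕ, n = su - (sn + sl + 314000000) := ⟨_, rfl⟩
  rw [← hn] at hkk
  have a1 : ((su : ℝ) - sn) / KS - sl / KS - 314 / 25 ≤ (n : ℝ) / KS := by
    have : (su : ℝ) ≤ n + (sn + sl + 314000000) := by
      have : su ≤ n + (sn + sl + 314000000) := by omega
      exact_mod_cast this
    unfold KS
    linarith
  have a2 : δ * (((su : ℝ) - sn) / KS - sl / KS - 314 / 25) ≤ ((X1 : ℝ) - X0) / 80 * ((n : ℝ) / KS) := by
    refine (mul_le_mul_of_nonneg_left a1 h0).trans ?_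
    exact mul_le_mul_of_nonneg_right h1 (div_nonneg (Nat.cast_nonneg _) (by unfold KS; norm_num))
  refine a2.trans ?_
  have a3 := le_ceil (n * (X1 - X0)) 1386200000 (by norm_num)
  rw [hkk]
  have a5 : (((n * (X1 - X0) : ℕ)) : ℝ) = n * ((X1 : ℝ) - X0) := by
    rw [Nat.cast_mul, Nat.cast_sub hX]
  rw [a5] at a3
  have a6 : (0.6931 : ℝ) ≤ Real.log 2 := by
    have := Real.log_two_gt_d9
    linarith
  have a7 : (0 : ℝ) ≤ n * ((X1 : ℝ) - X0) := by
    have : (0 : ℝ) ≤ (X1 : ℝ) - X0 := sub_nonneg.2 (by exact_mod_cast hX)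
    exact mul_nonneg (Nat.cast_nonneg _) this
  calc ((X1 : ℝ) - X0) / 80 * ((n : ℝ) / KS)
      = (n * ((X1 : ℝ) - X0)) / ((1386200000 : ℕ) : ℝ) * 0.6931 := by
        unfold KS
        push_cast
        ring
    _ ≤ ((n * (X1 - X0) / 1386200000 + 1 : ℕ) : ℝ) * 0.6931 :=
        mul_le_mul_of_nonneg_right a3 (by norm_num)
    _ ≤ ((n * (X1 - X0) / 1386200000 + 1 : ℕ) : ℝ) * Real.log 2 :=
        mul_le_mul_of_nonneg_left a6 (Nat.cast_nonneg _)

theorem jj_spec (X : ℕ) : Real.exp (-(314 / 25) * ((X : ℝ) / 80)) * 2 ^ jj X ≤ 1 := by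
  have h : (jj X : ℝ) * Real.log 2 ≤ 314 / 25 * ((X : ℝ) / 80) := by
    have a1 : ((jj X : ℕ) : ℝ) ≤ ((15700 * X : ℕ) : ℝ) / ((69315 : ℕ) : ℝ) := by
      unfold jj
      exact floor_le _ _
    have a2 : Real.log 2 ≤ 0.69315 := by
      have := Real.log_two_lt_d9
      linarith
    calc (jj X : ℝ) * Real.log 2 ≤ (jj X : ℝ) * 0.69315 :=
          mul_le_mul_of_nonneg_left a2 (Nat.cast_nonneg _)
      _ ≤ ((15700 * X : ℕ) : ℝ) / ((69315 : ℕ) : ℝ) * 0.69315 :=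
          mul_le_mul_of_nonneg_right a1 (by norm_num)
      _ = 314 / 25 * ((X : ℝ) / 80) := by
          push_cast
          ring
  have e : (2 : ℝ) ^ jj X = Real.exp (jj X * Real.log 2) := by
    rw [Real.exp_nat_mul, Real.exp_log (by norm_num)]
  rw [e, ← Real.exp_add]
  apply Real.exp_le_one_iff.2
  linarith

/-- the check in real numbers -/
theorem Chk.real {X0 X1 : ℕ} {P A : List Grp} {t : ℕ} (hP : GoodG P) (hA : GoodG A)
    (h : Chk X0 X1 P A t) :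
    2 ^ 30000 * FP A ((X0 : ℝ) / 80) * 2 ^ kk X0 X1 (pu X0 X1 A) (pn X0 A) (pl X0 X1 P) ≤
      2 ^ t * 2 ^ jj X0 * FP P ((X0 : ℝ) / 80) := by
  unfold Chk at h
  generalize (30000 : ℕ) = M at h ⊢
  generalize hk : kk X0 X1 (pu X0 X1 A) (pn X0 A) (pl X0 X1 P) = k at h ⊢
  generalize hj : jj X0 = j at h ⊢
  have h2 : ((pv X0 A : ℕ) : ℝ) * 2 ^ (M + k) * 6400 ^ dg P ≤
      2 ^ (t + j) * ((pv X0 P : ℕ) : ℝ) * 6400 ^ dg A := by
    exact_mod_cast h
  rw [pv_cast hA, pv_cast hP] at h2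
  have hc : (0 : ℝ) < 6400 ^ dg A * 6400 ^ dg P := by positivity
  refine le_of_mul_le_mul_right ?_ hc
  rw [pow_add, pow_add] at h2
  calc 2 ^ M * FP A ((X0 : ℝ) / 80) * 2 ^ k * (6400 ^ dg A * 6400 ^ dg P)
      = 6400 ^ dg A * FP A ((X0 : ℝ) / 80) * (2 ^ M * 2 ^ k) * 6400 ^ dg P := by ring
    _ ≤ _ := h2
    _ = _ := by ring

theorem cell {X0 X1 : ℕ} {P A : List Grp} {t : ℕ} (hP : PoleG P) (hA : GoodG A) (hX : X0 ≤ X1)
    (hp : ∀ g ∈ A, ∀ y ∈ g.1, 0 < fv y X0) (h : Chk X0 X1 P A t) {ρ : ℝ} (h0 : (X0 : ℝ) / 80 ≤ ρ) (h1 : ρ ≤ (X1 : ℝ) / 80) :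
    2 ^ 30000 * (Real.exp (-(314 / 25) * ρ) * FP A ρ) ≤ 2 ^ t * FP P ρ := by
  have hr := h.real hP.good hA
  generalize (30000 : ℕ) = M at hr ⊢
  have a1 := FP_up hA hp h0 h1
  have a2 := FP_lo hP h0 h1
  have hδ : 0 ≤ ρ - (X0 : ℝ) / 80 := sub_nonneg.2 h0
  have a3 := kk_spec X0 X1 (pu X0 X1 A) (pn X0 A) (pl X0 X1 P) hX hδ (by linarith)
  have a4 := jj_spec X0
  have ha := FP_nn hA ((X0 : ℝ) / 80)
  have hb := FP_nn hP.good ((X0 : ℝ) / 80)
  generalize kk X0 X1 (pu X0 X1 A) (pn X0 A) (pl X0 X1 P) = k at hr a3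
  generalize jj X0 = j at hr a4
  generalize (pu X0 X1 A : ℝ) = su at a1 a3
  generalize (pn X0 A : ℝ) = sn at a1 a3
  generalize (pl X0 X1 P : ℝ) = sl at a2 a3
  set x0 : ℝ := (X0 : ℝ) / 80 with hx0
  set a : ℝ := FP A x0
  set b : ℝ := FP P x0
  set δ : ℝ := ρ - x0 with hδd
  have e1 : Real.exp (-(314 / 25) * ρ) = Real.exp (-(314 / 25) * x0) * Real.exp (-(314 / 25) * δ) := by
    rw [← Real.exp_add, hδd]
    congr 1
    ring
  have e2 : Real.exp (-(314 / 25) * δ) * Real.exp (δ * ((su - sn) / KS)) =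
      Real.exp (δ * ((su - sn) / KS - sl / KS - 314 / 25)) * Real.exp (δ * (sl / KS)) := by
    rw [← Real.exp_add, ← Real.exp_add]
    congr 1
    ring
  have p1 := Real.exp_pos (-(314 / 25) * x0)
  have p2 := Real.exp_pos (-(314 / 25) * δ)
  have p3 := Real.exp_pos (δ * (sl / KS))
  have p4 : (0 : ℝ) < 2 ^ M := by positivity
  have p5 : (0 : ℝ) < 2 ^ t := by positivity
  generalize (2 : ℝ) ^ M = T at hr p4 ⊢
  generalize (2 : ℝ) ^ t = U at hr p5 ⊢
  calc T * (Real.exp (-(314 / 25) * ρ) * FP A ρ)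
      ≤ T * (Real.exp (-(314 / 25) * ρ) * (a * Real.exp (δ * ((su - sn) / KS)))) := by
        apply mul_le_mul_of_nonneg_left _ p4.le
        exact mul_le_mul_of_nonneg_left a1 (Real.exp_pos _).le
    _ = T * Real.exp (-(314 / 25) * x0) * a *
        (Real.exp (-(314 / 25) * δ) * Real.exp (δ * ((su - sn) / KS))) := by
        rw [e1]
        ring
    _ = T * Real.exp (-(314 / 25) * x0) * a * Real.exp (δ * (sl / KS)) *
        Real.exp (δ * ((su - sn) / KS - sl / KS - 314 / 25)) := by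
        rw [e2]
        ring
    _ ≤ T * Real.exp (-(314 / 25) * x0) * a * Real.exp (δ * (sl / KS)) * 2 ^ k := by
        apply mul_le_mul_of_nonneg_left a3
        positivity
    _ = Real.exp (-(314 / 25) * x0) * Real.exp (δ * (sl / KS)) * (T * a * 2 ^ k) := by ring
    _ ≤ Real.exp (-(314 / 25) * x0) * Real.exp (δ * (sl / KS)) * (U * 2 ^ j * b) := by
        apply mul_le_mul_of_nonneg_left hr
        positivity
    _ = U * (b * Real.exp (δ * (sl / KS))) * (Real.exp (-(314 / 25) * x0) * 2 ^ j) := by ring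
    _ ≤ U * (b * Real.exp (δ * (sl / KS))) * 1 := by
        apply mul_le_mul_of_nonneg_left a4
        positivity
    _ = U * (b * Real.exp (δ * (sl / KS))) := mul_one _
    _ ≤ U * FP P ρ := mul_le_mul_of_nonneg_left a2 p5.le

/-! ### Stages -/

theorem pv_append (X : ℕ) (L A : List Grp) : pv X (L ++ A) = pv X L * pv X A := by
  induction L with
  | nil => simp [pv]
  | cons g L ih => rw [List.cons_append, pv, pv, ih, mul_assoc]

theorem dg_append (L A : List Grp) : dg (L ++ A) = dg L + dg A := by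
  induction L with
  | nil => simp [dg]
  | cons g L ih => rw [List.cons_append, dg, dg, ih, add_assoc]

theorem pu_append (X0 X1 : ℕ) (L A : List Grp) : pu X0 X1 (L ++ A) = pu X0 X1 L + pu X0 X1 A := by
  induction L with
  | nil => simp [pu]
  | cons g L ih => rw [List.cons_append, pu, pu, ih, add_assoc]

theorem pn_append (X0 : ℕ) (L A : List Grp) : pn X0 (L ++ A) = pn X0 L + pn X0 A := by
  induction L with
  | nil => simp [pn]
  | cons g L ih => rw [List.cons_append, pn, pn, ih, add_assoc]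

/-- all the factors up to stage `s` -/
def cum : List Grp → List (List Grp) → ℕ → List Grp
  | A, [], _ => A
  | A, L :: _, 0 => L ++ A
  | A, L :: st, s + 1 => cum (L ++ A) st s

theorem chkS_spec (P : List Grp) (X0 X1 : ℕ) : ∀ (st : List (List Grp)) (ts : List ℕ) (A : List Grp),
    chkS X0 X1 (pv X0 P) (dg P) (pl X0 X1 P) st ts (pv X0 A) (dg A) (pu X0 X1 A) (pn X0 A) = true →
    ∀ s : ℕ, s < st.length → s < ts.length → Chk X0 X1 P (cum A st s) (ts.getD s 0) := by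
  intro st
  induction st with
  | nil =>
    intro ts A _ s hs
    simp at hs
  | cons L st ih =>
    intro ts A h s hs hs'
    cases ts with
    | nil => simp at hs'
    | cons t ts =>
      rw [chkS, Bool.and_eq_true, ← pv_append, ← dg_append, ← pu_append, ← pn_append] at h
      obtain ⟨h1, h2⟩ := h
      have h1' := Nat.le_of_ble_eq_true h1
      cases s with
      | zero =>
        rw [cum]
        simpa [Chk] using h1'
      | succ s =>
        rw [cum, List.getD_cons_succ]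
        simp only [List.length_cons] at hs hs'
        exact ih ts (L ++ A) h2 s (by omega) (by omega)

theorem chkC_spec {P : List Grp} {st : List (List Grp)} {ts : List ℕ} {X0 X1 : ℕ}
    (h : chkC P st ts X0 X1 = true) : X0 ≤ X1 ∧
    (∀ s : ℕ, s < st.length → s < ts.length → Chk X0 X1 P (cum [] st s) (ts.getD s 0)) ∧
    ∀ L ∈ st, ∀ g ∈ L, ∀ y ∈ g.1, 0 < fv y X0 := by
  unfold chkC at h
  rw [Bool.and_eq_true, Bool.and_eq_true] at h
  refine ⟨Nat.le_of_ble_eq_true h.1.1, chkS_spec P X0 X1 st ts [] h.1.2, ?_⟩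
  intro L hL g hg y hy
  have h1 := List.all_eq_true.1 h.2 L hL
  unfold posG at h1
  have h2 := List.all_eq_true.1 (List.all_eq_true.1 h1 g hg) y hy
  exact Nat.le_of_ble_eq_true h2

theorem good_cum : ∀ (st : List (List Grp)) (A : List Grp), GoodG A → (∀ L ∈ st, GoodG L) →
    ∀ s : ℕ, GoodG (cum A st s) := by
  intro st
  induction st with
  | nil => intro A hA _ s; rw [cum]; exact hA
  | cons L st ih =>
    intro A hA hst s
    have h1 : GoodG (L ++ A) := by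
      intro g hg
      rcases List.mem_append.1 hg with h | h
      · exact hst L (by simp) g h
      · exact hA g h
    cases s with
    | zero => rw [cum]; exact h1
    | succ s => rw [cum]; exact ih _ h1 (fun L' hL' => hst L' (by simp [hL'])) s

def dgs : List (List Grp) → ℕ
  | [] => 0
  | L :: st => dg L + dgs st

theorem dg_cum : ∀ (st : List (List Grp)) (A : List Grp) (s : ℕ),
    dg (cum A st s) ≤ dgs st + dg A := by
  intro st
  induction st with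
  | nil => intro A s; rw [cum, dgs]; omega
  | cons L st ih =>
    intro A s
    cases s with
    | zero => rw [cum, dgs, dg_append]; omega
    | succ s =>
      rw [cum, dgs]
      have := ih (L ++ A) s
      rw [dg_append] at this
      omega

theorem all_cum (Q : Fac → Prop) : ∀ (st : List (List Grp)) (A : List Grp),
    (∀ g ∈ A, ∀ y ∈ g.1, Q y) → (∀ L ∈ st, ∀ g ∈ L, ∀ y ∈ g.1, Q y) →
    ∀ s : ℕ, ∀ g ∈ cum A st s, ∀ y ∈ g.1, Q y := by
  intro st
  induction st with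
  | nil => intro A hA _ s; rw [cum]; exact hA
  | cons L st ih =>
    intro A hA hst s
    have h1 : ∀ g ∈ L ++ A, ∀ y ∈ g.1, Q y := by
      intro g hg
      rcases List.mem_append.1 hg with h | h
      · exact hst L (by simp) g h
      · exact hA g h
    cases s with
    | zero => rw [cum]; exact h1
    | succ s => rw [cum]; exact ih _ h1 (fun L' hL' => hst L' (by simp [hL'])) s

/-! ### Tail -/

theorem fr_tail {y : Fac} (h : GoodF y) {X V : ℕ} {ρ : ℝ} (h0 : (X : ℝ) / 80 ≤ ρ)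
    (ht : tailF X V y = true) :
    fr y ρ ≤ fr y ((X : ℝ) / 80) * Real.exp ((ρ - (X : ℝ) / 80) * ((V : ℝ) / 1000)) := by
  unfold tailF at ht
  rw [Bool.and_eq_true] at ht
  have t1 := Nat.le_of_ble_eq_true ht.1
  have t2 := Nat.le_of_ble_eq_true ht.2
  have t1' : (51200000000 : ℝ) ≤ (fv y X : ℕ) * (V : ℝ) ^ 2 := by exact_mod_cast t1
  have t2' : (80000 * (4 * X + 2 * y.p) : ℝ) ≤ (fv y X : ℕ) * (V : ℝ) + 160000 * y.q := by
    exact_mod_cast t2
  rw [fv_cast h] at t1' t2'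
  set x0 : ℝ := (X : ℝ) / 80 with hx0
  have hX : (X : ℝ) = 80 * x0 := by rw [hx0]; ring
  rw [hX] at t2'
  set v : ℝ := (V : ℝ) / 1000 with hv
  have hV : (V : ℝ) = 1000 * v := by rw [hv]; ring
  rw [hV] at t1' t2'
  have hδ : 0 ≤ ρ - x0 := sub_nonneg.2 h0
  have hv0 : 0 ≤ v := by rw [hv]; positivity
  set δ : ℝ := ρ - x0 with hδd
  have hρ : ρ = x0 + δ := by rw [hδd]; ring
  have e1 : fr y ρ ≤ fr y x0 * (1 + δ * v / 2) ^ 2 := by
    have key : fr y x0 * (1 + δ * v / 2) ^ 2 - fr y ρ =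
        δ * (fr y x0 * v - (4 * x0 + 2 * (((y.p : ℝ) - y.q) / 80))) +
        δ ^ 2 * (fr y x0 * v ^ 2 / 4 - 2) := by
      rw [hρ]
      unfold fr
      ring
    have k1 : 0 ≤ fr y x0 * v - (4 * x0 + 2 * (((y.p : ℝ) - y.q) / 80)) := by linarith
    have k2 : 0 ≤ fr y x0 * v ^ 2 / 4 - 2 := by nlinarith
    have := add_nonneg (mul_nonneg hδ k1) (mul_nonneg (sq_nonneg δ) k2)
    linarith
  have e2 : (1 + δ * v / 2) ^ 2 ≤ Real.exp (δ * v) := by
    have h3 : 1 + δ * v / 2 ≤ Real.exp (δ * v / 2) := by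
      have := Real.add_one_le_exp (δ * v / 2)
      linarith
    have h4 : 0 ≤ 1 + δ * v / 2 := by positivity
    calc (1 + δ * v / 2) ^ 2 ≤ Real.exp (δ * v / 2) ^ 2 := pow_le_pow_left₀ h4 h3 2
      _ = Real.exp (δ * v) := by
        rw [← Real.exp_nat_mul]
        congr 1
        push_cast
        ring
  exact e1.trans (mul_le_mul_of_nonneg_left e2 (fr_nn h x0))

theorem fg_tail {l : List Fac} (h : GoodL l) {X V : ℕ} {ρ : ℝ} (h0 : (X : ℝ) / 80 ≤ ρ)
    (ht : ∀ y ∈ l, tailF X V y = true) :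
    fg l ρ ≤ fg l ((X : ℝ) / 80) *
      Real.exp (l.length * ((ρ - (X : ℝ) / 80) * ((V : ℝ) / 1000))) := by
  induction l with
  | nil => simp [fg]
  | cons y l ih =>
    have hy := h y (by simp)
    have hl : GoodL l := fun z hz => h z (by simp [hz])
    have a1 := fr_tail hy h0 (ht y (by simp))
    have a2 := ih hl (fun z hz => ht z (by simp [hz]))
    rw [fg_cons, fg_cons, List.length_cons]
    push_cast
    rw [add_mul, one_mul, Real.exp_add]
    refine (mul_le_mul a1 a2 (fg_nn hl ρ) (mul_nonneg (fr_nn hy _) (Real.exp_pos _).le)).trans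
      (le_of_eq ?_)
    ring

theorem FP_tail {L : List Grp} (h : GoodG L) {X V : ℕ} {ρ : ℝ} (h0 : (X : ℝ) / 80 ≤ ρ)
    (ht : ∀ g ∈ L, ∀ y ∈ g.1, tailF X V y = true) :
    FP L ρ ≤ FP L ((X : ℝ) / 80) *
      Real.exp (dg L * ((ρ - (X : ℝ) / 80) * ((V : ℝ) / 1000))) := by
  induction L with
  | nil => simp [FP, dg]
  | cons g L ih =>
    have hy := h g (by simp)
    have hl : GoodG L := fun z hz => h z (by simp [hz])
    have a1 := pow_le_pow_left₀ (fg_nn hy ρ) (fg_tail hy h0 (ht g (by simp))) g.2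
    have a2 := ih hl (fun z hz => ht z (by simp [hz]))
    rw [mul_pow, ← Real.exp_nat_mul] at a1
    rw [FP_cons, FP_cons, dg]
    push_cast
    have e : ((g.1.length : ℝ) * g.2 + dg L) * ((ρ - (X : ℝ) / 80) * ((V : ℝ) / 1000)) =
        g.2 * (g.1.length * ((ρ - (X : ℝ) / 80) * ((V : ℝ) / 1000))) +
        dg L * ((ρ - (X : ℝ) / 80) * ((V : ℝ) / 1000)) := by ring
    rw [e, Real.exp_add]
    refine (mul_le_mul a1 a2 (FP_nn hl ρ)
      (mul_nonneg (pow_nonneg (fg_nn hy _) _) (Real.exp_pos _).le)).trans (le_of_eq ?_)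
    ring

theorem FP_mono {P : List Grp} (hP : PoleG P) {X : ℕ} {ρ : ℝ} (h0 : (X : ℝ) / 80 ≤ ρ) :
    FP P ((X : ℝ) / 80) ≤ FP P ρ := by
  obtain ⟨m, hm⟩ := exists_nat_ge (80 * ρ)
  have h1 : ρ ≤ (m : ℝ) / 80 := by linarith
  refine le_trans ?_ (FP_lo hP h0 h1)
  have h2 : (1 : ℝ) ≤ Real.exp ((ρ - (X : ℝ) / 80) * (((pl X m P : ℕ) : ℝ) / KS)) := by
    apply Real.one_le_exp
    apply mul_nonneg (sub_nonneg.2 h0)
    unfold KS
    positivity
  exact le_mul_of_one_le_right (FP_nn hP.good _) h2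

theorem tail {X V : ℕ} {P A : List Grp} {t : ℕ} (hP : PoleG P) (hA : GoodG A)
    (hp : ∀ g ∈ A, ∀ y ∈ g.1, 0 < fv y X) (h : Chk X X P A t) (hT : ∀ g ∈ A, ∀ y ∈ g.1, tailF X V y = true)
    (hd : dg A * V * 25 ≤ 314000) {ρ : ℝ} (h0 : (X : ℝ) / 80 ≤ ρ) :
    2 ^ 30000 * (Real.exp (-(314 / 25) * ρ) * FP A ρ) ≤ 2 ^ t * FP P ρ := by
  have a0 := cell hP hA le_rfl hp h (le_refl ((X : ℝ) / 80)) (le_refl ((X : ℝ) / 80))
  generalize (30000 : ℕ) = M at a0 ⊢
  have a1 := FP_tail hA h0 hT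
  have a2 := FP_mono hP h0
  have hd' : (dg A : ℝ) * V * 25 ≤ 314000 := by exact_mod_cast hd
  set x0 : ℝ := (X : ℝ) / 80 with hx0
  have hδ : 0 ≤ ρ - x0 := sub_nonneg.2 h0
  have e1 : Real.exp (-(314 / 25) * ρ) * Real.exp (dg A * ((ρ - x0) * ((V : ℝ) / 1000))) ≤
      Real.exp (-(314 / 25) * x0) := by
    rw [← Real.exp_add]
    apply Real.exp_le_exp.2
    have : (ρ - x0) * ((dg A : ℝ) * V / 1000) ≤ (ρ - x0) * (314 / 25) := by
      apply mul_le_mul_of_nonneg_left _ hδ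
      linarith
    linarith
  refine le_trans ?_ (a0.trans (mul_le_mul_of_nonneg_left a2 (by positivity)))
  apply mul_le_mul_of_nonneg_left _ (by positivity)
  calc Real.exp (-(314 / 25) * ρ) * FP A ρ
      ≤ Real.exp (-(314 / 25) * ρ) * (FP A x0 * Real.exp (dg A * ((ρ - x0) * ((V : ℝ) / 1000)))) :=
        mul_le_mul_of_nonneg_left a1 (Real.exp_pos _).le
    _ = (Real.exp (-(314 / 25) * ρ) * Real.exp (dg A * ((ρ - x0) * ((V : ℝ) / 1000)))) * FP A x0 := by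
        ring
    _ ≤ Real.exp (-(314 / 25) * x0) * FP A x0 :=
        mul_le_mul_of_nonneg_right e1 (FP_nn hA _)

/-! ### The whole half line -/

theorem chain {P : List Grp} {st : List (List Grp)} {ts : List ℕ} (hP : PoleG P)
    (hst : ∀ L ∈ st, GoodG L) {s : ℕ} (hs : s < st.length) (hs' : s < ts.length) :
    ∀ (l : List ℕ) (X : ℕ), chkL P st ts (X :: l) = true →
    ∀ ρ : ℝ, (X : ℝ) / 80 ≤ ρ → ρ ≤ (((X :: l).getLast (by simp) : ℕ) : ℝ) / 80 → (l ≠ []) →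
    2 ^ 30000 * (Real.exp (-(314 / 25) * ρ) * FP (cum [] st s) ρ) ≤ 2 ^ (ts.getD s 0) * FP P ρ := by
  intro l
  induction l with
  | nil => intro X _ ρ _ _ h; exact absurd rfl h
  | cons Y l ih =>
    intro X h ρ h0 h1 _
    have h' : chkC P st ts X Y = true ∧ chkL P st ts (Y :: l) = true := by
      have : chkL P st ts (X :: Y :: l) = (chkC P st ts X Y && chkL P st ts (Y :: l)) := rfl
      rw [this, Bool.and_eq_true] at h
      exact h
    have hC := chkC_spec h'.1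
    have hgood : GoodG (cum [] st s) := good_cum st [] (by intro g hg; simp at hg) hst s
    have hpos : ∀ g ∈ cum [] st s, ∀ y ∈ g.1, 0 < fv y X :=
      all_cum (fun y => 0 < fv y X) st [] (by intro g hg; simp at hg) hC.2.2 s
    rcases le_or_gt ρ ((Y : ℝ) / 80) with h2 | h2
    · exact cell hP hgood hC.1 hpos (hC.2.1 s hs hs') h0 h2
    · rw [List.getLast_cons (by simp)] at h1
      cases l with
      | nil =>
        simp only [List.getLast_singleton] at h1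
        exact absurd h1 (not_le.2 h2)
      | cons Z l => exact ih Y h'.2 ρ h2.le h1 (by simp)

/-- the final check at the last point -/
def chkT (P : List Grp) (st : List (List Grp)) (ts : List ℕ) (R V : ℕ) : Bool :=
  poleG P && st.all goodG && chkC P st ts R R && st.all (tailG R V) &&
    Nat.ble (dgs st * V * 25) 314000

theorem pole_of {P : List Grp} (h : poleG P = true) : PoleG P := by
  intro g hg y hy
  unfold poleG at h
  have h1 := List.all_eq_true.1 h g hg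
  have h2 := List.all_eq_true.1 h1 y hy
  unfold poleF at h2
  rw [Bool.and_eq_true, Bool.and_eq_true] at h2
  refine ⟨Nat.eq_of_beq_eq_true h2.1.1, Nat.eq_of_beq_eq_true h2.1.2, ?_⟩
  exact Nat.le_of_ble_eq_true h2.2

theorem good_of {L : List Grp} (h : goodG L = true) : GoodG L := by
  intro g hg y hy
  unfold goodG at h
  have h1 := List.all_eq_true.1 h g hg
  have h2 := List.all_eq_true.1 h1 y hy
  unfold goodF at h2
  exact Nat.le_of_ble_eq_true h2

theorem sound {P : List Grp} {st : List (List Grp)} {ts br : List ℕ} {V : ℕ} (hbr : br ≠ [])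
    (h1 : chkL P st ts (0 :: br) = true)
    (h2 : chkT P st ts ((0 :: br).getLast (by simp)) V = true)
    {s : ℕ} (hs : s < st.length) (hs' : s < ts.length) {ρ : ℝ} (hρ : 0 ≤ ρ) :
    2 ^ 30000 * (Real.exp (-(314 / 25) * ρ) * FP (cum [] st s) ρ) ≤ 2 ^ (ts.getD s 0) * FP P ρ := by
  unfold chkT at h2
  rw [Bool.and_eq_true, Bool.and_eq_true, Bool.and_eq_true, Bool.and_eq_true] at h2
  obtain ⟨⟨⟨⟨c1, c2⟩, c3⟩, c4⟩, c5⟩ := h2
  have hP := pole_of c1
  have hst : ∀ L ∈ st, GoodG L := fun L hL => good_of (List.all_eq_true.1 c2 L hL)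
  rcases le_or_gt ρ ((((0 :: br).getLast (by simp) : ℕ) : ℝ) / 80) with h | h
  · exact chain hP hst hs hs' br 0 h1 ρ (by simpa using hρ) h hbr
  · have hC := chkC_spec c3
    have hgood : GoodG (cum [] st s) := good_cum st [] (by intro g hg; simp at hg) hst s
    have hT : ∀ g ∈ cum [] st s, ∀ y ∈ g.1, tailF ((0 :: br).getLast (by simp)) V y = true := by
      apply all_cum (fun y => tailF ((0 :: br).getLast (by simp)) V y = true)
      · intro g hg; simp at hg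
      · intro L hL g hg y hy
        have t1 := List.all_eq_true.1 c4 L hL
        unfold tailG at t1
        have t2 := List.all_eq_true.1 t1 g hg
        exact List.all_eq_true.1 t2 y hy
    have hpos : ∀ g ∈ cum [] st s, ∀ y ∈ g.1, 0 < fv y ((0 :: br).getLast (by simp)) :=
      all_cum (fun y => 0 < fv y ((0 :: br).getLast (by simp))) st []
        (by intro g hg; simp at hg) hC.2.2 s
    refine tail (V := V) hP hgood hpos (hC.2.1 s hs hs') hT ?_ h.le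
    have d1 := dg_cum st [] s
    have d2 := Nat.le_of_ble_eq_true c5
    have d3 : dg (cum [] st s) ≤ dgs st := by
      have : dg [] = 0 := rfl
      omega
    calc dg (cum [] st s) * V * 25 ≤ dgs st * V * 25 := by gcongr
      _ ≤ 314000 := d2

theorem FP_cum : ∀ (st : List (List Grp)) (A : List Grp) (s : ℕ), s < st.length → ∀ ρ : ℝ,
    FP (cum A st s) ρ = FP A ρ * ∏ i ∈ Finset.range (s + 1), FP (st.getD i []) ρ := by
  intro st
  induction st with
  | nil => intro A s hs; simp at hs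
  | cons L st ih =>
    intro A s hs ρ
    cases s with
    | zero =>
      rw [cum, FP_append]
      simp [mul_comm]
    | succ s =>
      rw [cum, ih _ _ (by simpa using hs), FP_append, Finset.prod_range_succ' _ (s + 1)]
      simp only [List.getD_cons_succ, List.getD_cons_zero]
      ring

/-! ### The data -/

/-- the factors `qd (a + o / 80)`, `l ≤ a < l + n` -/
def wl (o l n : ℕ) : List Fac := (List.range n).map fun j =>
  (⟨80 * (l + j) + o, 0, (80 * (l + j) + o) ^ 2⟩ : Fac)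

def PL0 : List Grp := [(wl 0 72 1, 5), (wl 0 73 239, 10), (wl 0 312 1, 5)]
def PL1 : List Grp := [(wl 0 96 1, 5), (wl 0 97 239, 10), (wl 0 336 1, 5)]
def ZL0 : List Grp := [(wl 40 0 48, 5), (wl 40 336 48, 5)]
def ZL1 : List Grp := [(wl 40 24 48, 5), (wl 40 360 48, 5)]
def ZL2 : List Grp := [(wl 40 0 24, 10), (wl 40 24 48, 5), (wl 40 360 48, 5), (wl 40 408 24, 10)]

theorem fg_wl (o l n : ℕ) (ρ : ℝ) :
    fg (wl o l n) ρ = ∏ j ∈ Finset.range n, qd ((((l + j : ℕ) : ℝ)) + o / 80) ρ := by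
  induction n with
  | zero => simp [fg, wl]
  | succ n ih =>
    rw [Finset.prod_range_succ, ← ih]
    have h : wl o l (n + 1) = wl o l n ++ [⟨80 * (l + n) + o, 0, (80 * (l + n) + o) ^ 2⟩] := by
      unfold wl
      rw [List.range_succ, List.map_append]
      rfl
    rw [h]
    unfold fg
    rw [List.map_append, List.prod_append]
    congr 1
    simp only [List.map_cons, List.map_nil, List.prod_cons, List.prod_nil, mul_one]
    unfold fr qd
    push_cast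
    ring

/-- the four factors of an atom; `c` integer, `a`, `b` in tenths -/
def qg (c a b : ℕ) : List Fac :=
  [⟨80 * c, 8 * a + 8 * b, (80 * c) ^ 2 + (8 * a) ^ 2 + (8 * b) ^ 2 - 2 * (80 * c) * (8 * a)⟩,
   ⟨80 * c + 8 * b, 8 * a, (80 * c) ^ 2 + (8 * a) ^ 2 + (8 * b) ^ 2 - 2 * (80 * c) * (8 * a)⟩,
   ⟨80 * c + 30720 + 8 * a + 8 * b, 0, (80 * c + 30720 + 8 * a) ^ 2 + (8 * b) ^ 2⟩,
   ⟨80 * c + 30720 + 8 * a, 8 * b, (80 * c + 30720 + 8 * a) ^ 2 + (8 * b) ^ 2⟩]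

theorem fg_qg (c a b : ℕ) (ρ : ℝ) :
    fg (qg c a b) ρ = Qb (c : ℚ) ((a : ℚ) / 10) ((b : ℚ) / 10) ρ := by
  have h : 2 * (80 * c) * (8 * a) ≤ (80 * c) ^ 2 + (8 * a) ^ 2 + (8 * b) ^ 2 := by
    have := two_mul_le_add_sq (80 * c) (8 * a)
    omega
  have e : (((80 * c) ^ 2 + (8 * a) ^ 2 + (8 * b) ^ 2 - 2 * (80 * c) * (8 * a) : ℕ) : ℝ) =
      (80 * (c : ℝ)) ^ 2 + (8 * (a : ℝ)) ^ 2 + (8 * (b : ℝ)) ^ 2 - 2 * (80 * c) * (8 * a) := by
    rw [Nat.cast_sub h]
    push_cast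
    ring
  unfold fg qg
  simp only [List.map_cons, List.map_nil, List.prod_cons, List.prod_nil, mul_one]
  unfold fr Qb
  simp only [e]
  push_cast
  ring

/-- a stage -/
def stg (c : ℕ) : List (ℕ × ℕ) → List ℕ → List Grp
  | y :: B, k :: sg => if k = 0 then stg c B sg else (qg c y.1 y.2, 2 * k) :: stg c B sg
  | _, _ => []

theorem FP_stg (c : ℕ) (ρ : ℝ) : ∀ (B : List (ℕ × ℕ)) (sg : List ℕ), B.length = sg.length →
    FP (stg c B sg) ρ = ∏ k ∈ Finset.range sg.length,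
      Qb (c : ℚ) (((B.getD k (0, 0)).1 : ℚ) / 10) (((B.getD k (0, 0)).2 : ℚ) / 10) ρ ^
        (2 * sg.getD k 0) := by
  intro B
  induction B with
  | nil =>
    intro sg h
    have : sg = [] := List.length_eq_zero_iff.1 (by simpa using h.symm)
    rw [this]
    simp [stg, FP]
  | cons y B ih =>
    intro sg h
    cases sg with
    | nil => simp at h
    | cons k sg =>
      have h' : B.length = sg.length := by simpa using h
      rw [List.length_cons, Finset.prod_range_succ']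
      simp only [List.getD_cons_succ, List.getD_cons_zero]
      rw [← ih sg h', stg]
      split_ifs with hk
      · rw [hk]
        simp
      · rw [FP_cons, fg_qg, mul_comm]

/-- the atoms in tenths -/
def BL1 : List (ℕ × ℕ) := [
  (3, 0), (33, 0), (244, 0), (137, 2), (72, 50), (113, 84), (150, 126), (206, 159)]

def BL2 : List (ℕ × ℕ) := [
  (292, 4), (276, 29), (431, 38), (296, 44), (335, 56), (321, 67), (346, 96), (366, 115),
  (409, 128), (391, 140), (421, 171), (446, 199), (465, 218), (471, 225), (500, 252), (530, 282),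
  (550, 304), (579, 334), (611, 367), (651, 402), (688, 442), (723, 476), (771, 521), (804, 562),
  (832, 590), (870, 627), (918, 674), (957, 713), (973, 731), (1018, 777), (1089, 844),
  (1196, 954), (1313, 1067), (1447, 1202)]

theorem at1_eq (k : ℕ) (hk : k < 8) :
    at1 k = (((BL1.getD k (0, 0)).1 : ℚ) / 10, ((BL1.getD k (0, 0)).2 : ℚ) / 10) := by
  interval_cases k <;> simp [at1, la1, BL1] <;> norm_num

theorem at2_eq (k : ℕ) (hk : k < 34) :
    at2 k = (((BL2.getD k (0, 0)).1 : ℚ) / 10, ((BL2.getD k (0, 0)).2 : ℚ) / 10) := by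
  interval_cases k <;> simp [at2, la2, BL2] <;> norm_num

theorem len1 (s : ℕ) (hs : s < 5) : (ls1.getD s []).length = 8 := by
  interval_cases s <;> rfl

theorem len2 (s : ℕ) (hs : s < 10) : (ls2.getD s []).length = 34 := by
  interval_cases s <;> rfl

theorem Q1_eq (c s : ℕ) (hs : s < 5) (ρ : ℝ) :
    Q1 (c : ℚ) s ρ = FP (stg c BL1 (ls1.getD s [])) ρ := by
  have h : BL1.length = (ls1.getD s []).length := by rw [len1 s hs]; rfl
  rw [FP_stg c ρ BL1 _ h, len1 s hs]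
  unfold Q1
  apply Finset.prod_congr rfl
  intro k hk
  rw [at1_eq k (Finset.mem_range.1 hk)]

theorem Q2_eq (s : ℕ) (hs : s < 10) (ρ : ℝ) :
    Q2 s ρ = FP (stg 24 BL2 (ls2.getD s [])) ρ := by
  have h : BL2.length = (ls2.getD s []).length := by rw [len2 s hs]; rfl
  rw [FP_stg 24 ρ BL2 _ h, len2 s hs]
  unfold Q2
  apply Finset.prod_congr rfl
  intro k hk
  rw [at2_eq k (Finset.mem_range.1 hk)]
  norm_num

theorem FP_PL0 (ρ : ℝ) : FP PL0 ρ = GP0 ρ := by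
  unfold PL0 GP0
  rw [FP_cons, FP_cons, FP_cons, fg_wl, fg_wl, fg_wl, Finset.prod_Ico_eq_prod_range]
  simp only [FP, List.map_nil, List.prod_nil, Finset.prod_range_one, mul_one, add_zero,
    Nat.cast_zero, zero_div, Nat.cast_ofNat]
  rw [mul_assoc]

theorem FP_PL1 (ρ : ℝ) : FP PL1 ρ = GP1 ρ := by
  unfold PL1 GP1
  rw [FP_cons, FP_cons, FP_cons, fg_wl, fg_wl, fg_wl, Finset.prod_Ico_eq_prod_range]
  simp only [FP, List.map_nil, List.prod_nil, Finset.prod_range_one, mul_one, add_zero,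
    Nat.cast_zero, zero_div, Nat.cast_ofNat]
  rw [mul_assoc]

theorem half : ((40 : ℕ) : ℝ) / 80 = 1 / 2 := by norm_num

theorem FP_ZL0 (ρ : ℝ) : FP ZL0 ρ = GZ0 ρ := by
  unfold ZL0 GZ0
  rw [FP_cons, FP_cons, fg_wl, fg_wl, Finset.prod_Ico_eq_prod_range, half]
  simp only [FP, List.map_nil, List.prod_nil, mul_one, zero_add]

theorem FP_ZL1 (ρ : ℝ) : FP ZL1 ρ = GZ1 ρ := by
  unfold ZL1 GZ1
  rw [FP_cons, FP_cons, fg_wl, fg_wl, Finset.prod_Ico_eq_prod_range,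
    Finset.prod_Ico_eq_prod_range, half]
  simp only [FP, List.map_nil, List.prod_nil, mul_one]

theorem FP_ZL2 (ρ : ℝ) : FP ZL2 ρ = GZ2 ρ := by
  unfold ZL2 GZ2
  rw [← FP_ZL1]
  unfold ZL1
  rw [FP_cons, FP_cons, FP_cons, FP_cons, FP_cons, FP_cons, fg_wl, fg_wl, fg_wl, fg_wl,
    Finset.prod_Ico_eq_prod_range, half]
  simp only [FP, List.map_nil, List.prod_nil, mul_one, zero_add]
  ring

/-! ### Main theorems: only the list of break points is needed -/

def stA : List (List Grp) := ZL0 :: ls1.map (stg 0 BL1)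
def stB : List (List Grp) := ZL1 :: ls1.map (stg 24 BL1)
def stC : List (List Grp) := ZL2 :: ls2.map (stg 24 BL2)

theorem prodA (c : ℕ) (Z : List Grp) (s : ℕ) (hs : s ≤ 5) (ρ : ℝ) :
    FP (cum [] (Z :: ls1.map (stg c BL1)) s) ρ =
      FP Z ρ * ∏ s' ∈ Finset.range s, Q1 (c : ℚ) s' ρ := by
  rw [FP_cum _ _ _ (by simp [ls1]; omega), Finset.prod_range_succ']
  simp only [List.getD_cons_succ, List.getD_cons_zero]
  have h : ∏ i ∈ Finset.range s, FP ((ls1.map (stg c BL1)).getD i []) ρ =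
      ∏ s' ∈ Finset.range s, Q1 (c : ℚ) s' ρ := by
    apply Finset.prod_congr rfl
    intro i hi
    have hi' : i < 5 := by have := Finset.mem_range.1 hi; omega
    rw [Q1_eq c i hi']
    interval_cases i <;> rfl
  rw [h]
  have h0 : FP ([] : List Grp) ρ = 1 := by simp [FP]
  rw [h0, one_mul, mul_comm]

theorem prodC (Z : List Grp) (s : ℕ) (hs : s ≤ 10) (ρ : ℝ) :
    FP (cum [] (Z :: ls2.map (stg 24 BL2)) s) ρ =
      FP Z ρ * ∏ s' ∈ Finset.range s, Q2 s' ρ := by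
  rw [FP_cum _ _ _ (by simp [ls2]; omega), Finset.prod_range_succ']
  simp only [List.getD_cons_succ, List.getD_cons_zero]
  have h : ∏ i ∈ Finset.range s, FP ((ls2.map (stg 24 BL2)).getD i []) ρ =
      ∏ s' ∈ Finset.range s, Q2 s' ρ := by
    apply Finset.prod_congr rfl
    intro i hi
    have hi' : i < 10 := by have := Finset.mem_range.1 hi; omega
    rw [Q2_eq i hi']
    interval_cases i <;> rfl
  rw [h]
  have h0 : FP ([] : List Grp) ρ = 1 := by simp [FP]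
  rw [h0, one_mul, mul_comm]

theorem mainA (br : List ℕ) (hbr : br ≠ []) (h1 : chkL PL0 stA lt1 (0 :: br) = true)
    (h2 : chkT PL0 stA lt1 ((0 :: br).getLast (by simp)) 4 = true)
    (s : ℕ) (hs : s ≤ 5) (ρ : ℝ) (hρ : 0 ≤ ρ) :
    2 ^ 30000 * (Real.exp (-(314 / 25) * ρ) * GZ0 ρ * ∏ s' ∈ Finset.range s, Q1 0 s' ρ) ≤
      2 ^ t1 s * GP0 ρ := by
  have h := sound hbr h1 h2 (s := s) (by simp [stA, ls1]; omega) (by simp [lt1]; omega) hρ
  generalize (30000 : ℕ) = M at h ⊢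
  rw [FP_PL0] at h
  unfold stA at h
  rw [prodA 0 ZL0 s hs ρ, FP_ZL0, Nat.cast_zero, ← mul_assoc (Real.exp _)] at h
  exact h

theorem mainB (br : List ℕ) (hbr : br ≠ []) (h1 : chkL PL1 stB lt1 (0 :: br) = true)
    (h2 : chkT PL1 stB lt1 ((0 :: br).getLast (by simp)) 4 = true)
    (s : ℕ) (hs : s ≤ 5) (ρ : ℝ) (hρ : 0 ≤ ρ) :
    2 ^ 30000 * (Real.exp (-(314 / 25) * ρ) * GZ1 ρ * ∏ s' ∈ Finset.range s, Q1 24 s' ρ) ≤
      2 ^ t1 s * GP1 ρ := by
  have h := sound hbr h1 h2 (s := s) (by simp [stB, ls1]; omega) (by simp [lt1]; omega) hρ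
  generalize (30000 : ℕ) = M at h ⊢
  rw [FP_PL1] at h
  unfold stB at h
  rw [prodA 24 ZL1 s hs ρ, FP_ZL1, Nat.cast_ofNat, ← mul_assoc (Real.exp _)] at h
  exact h

theorem mainC (br : List ℕ) (hbr : br ≠ []) (h1 : chkL PL1 stC lt2 (0 :: br) = true)
    (h2 : chkT PL1 stC lt2 ((0 :: br).getLast (by simp)) 4 = true)
    (s : ℕ) (hs : s ≤ 10) (ρ : ℝ) (hρ : 0 ≤ ρ) :
    2 ^ 30000 * (Real.exp (-(314 / 25) * ρ) * GZ2 ρ * ∏ s' ∈ Finset.range s, Q2 s' ρ) ≤
      2 ^ t2 s * GP1 ρ := by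
  have h := sound hbr h1 h2 (s := s) (by simp [stC, ls2]; omega) (by simp [lt2]; omega) hρ
  generalize (30000 : ℕ) = M at h ⊢
  rw [FP_PL1] at h
  unfold stC at h
  rw [prodC ZL2 s hs ρ, FP_ZL2, ← mul_assoc (Real.exp _)] at h
  exact h

end G3L

end Pool.Agent.J6H37.Z13
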