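import Pool.Agent.J6H37.Z13.G4pre
import Pool.Agent.J6H37.Z13.G4e
import Pool.Agent.J6H37.Z13.G4m

/-!
# G4 (helper318): the total archimedean bound
-/

open Polynomial Pool.Agent.H337R2 Filter Topology

namespace Pool.Agent.J6H37.Z13

noncomputable section

/-- total archimedean bound -/
theorem G4_arch : ∀ ε : ℝ, 0 < ε → ∀ᶠ N : ℕ in atTop, ∀ n : ℕ, n = 24 * N + 1 → ∀ u : ℕ → ℚ,
    (∀ i ∈ ({3, 5, 7, 9} : Finset ℕ), zr (i + 4) = (u i : ℝ)) →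
    DET n u (20 * (n - 1)) ≠ 0 →
    Real.log |((DET n u (20 * (n - 1)) : ℚ) : ℝ)| ≤
      800 * (n : ℝ) ^ 2 * Real.log n + (JJ + ε) * (n : ℝ) ^ 2 :=
  G4_arch_of (fun _ hN i hi => G4_monic hN i hi) G4_entry (fun _ hN => G4_sum hN)

end

end Pool.Agent.J6H37.Z13
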