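import Pool.Agent.J6H37.Z13.G4eAux

/-!
# Bounds of the entries, with the analytic inputs as hypotheses
-/

open Polynomial Pool.Agent.H337R2

namespace Pool.Agent.J6H37.Z13

noncomputable section

namespace G4eAux

/-- statement of `V2_NL_le` -/
def HV2 : Prop := ∃ C : ℝ, 0 < C ∧ ∀ n : ℕ, 2 ≤ n → ∀ u : ℕ → ℚ,
    (∀ i ∈ ({3, 5, 7, 9} : Finset ℕ), zr (i + 4) = (u i : ℝ)) →
    ∀ Q : ℚ[X], Q.natDegree ≤ 40 * n - 42 → ∀ U : ℕ,
    (∀ t < U, (X - Polynomial.C (xq n t)) ^ 5 ∣ Q) → ∀ B : ℝ,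
    (∀ r : ℝ, 0 ≤ r → ‖Rv n (zv U r)‖ * ‖xv n (zv U r)‖ ^ 45 * ‖aeval (xv n (zv U r)) Q‖ *
      Real.exp (-(2 * Real.pi * r)) ≤ B * (1 + r ^ 2)⁻¹) →
    |((NL n u Q : ℚ) : ℝ)| ≤ C * B

/-- statement of `G1_0` -/
def HG10 : Prop := ∃ (C : ℝ) (K : ℕ), 0 < C ∧ ∀ N : ℕ, 1 ≤ N → ∀ n : ℕ, n = 24 * N + 1 →
    ∀ ρ : ℝ, 0 ≤ ρ →
    (‖Rv n (zv 0 (N * ρ))‖ * ‖xv n (zv 0 (N * ρ))‖ ^ 500 * Real.exp (-(2 * Real.pi * (N * ρ))) *
      (1 + (N * ρ) ^ 2)) ^ 2 * GP0 ρ ^ N ≤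
    C * (n : ℝ) ^ K * Real.exp (Lam * N) * (Real.exp (-(314 / 25) * ρ) * GZ0 ρ) ^ N

/-- statement of `G1_1` -/
def HG11 : Prop := ∃ (C : ℝ) (K : ℕ), 0 < C ∧ ∀ N : ℕ, 1 ≤ N → ∀ n : ℕ, n = 24 * N + 1 →
    ∀ ρ : ℝ, 0 ≤ ρ →
    (‖Rv n (zv (24 * N) (N * ρ))‖ * ‖xv n (zv (24 * N) (N * ρ))‖ ^ 500 *
      Real.exp (-(2 * Real.pi * (N * ρ))) *
      (1 + (N * ρ) ^ 2)) ^ 2 * GP1 ρ ^ N ≤
    C * (n : ℝ) ^ K * Real.exp (Lam * N) * (Real.exp (-(314 / 25) * ρ) * GZ1 ρ) ^ N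

/-- statement of `G1_2` -/
def HG12 : Prop := ∃ (C : ℝ) (K : ℕ), 0 < C ∧ ∀ N : ℕ, 1 ≤ N → ∀ n : ℕ, n = 24 * N + 1 →
    ∀ ρ : ℝ, 0 ≤ ρ →
    (‖Rv n (zv (24 * N) (N * ρ))‖ * ‖xv n (zv (24 * N) (N * ρ))‖ ^ 500 *
      Real.exp (-(2 * Real.pi * (N * ρ))) *
      (1 + (N * ρ) ^ 2) * ‖aeval (xv n (zv (24 * N) (N * ρ))) (MU N)‖ ^ 2) ^ 2 * GP1 ρ ^ N ≤
    C * (n : ℝ) ^ K * Real.exp (Lam * N) * (N : ℝ) ^ (960 * N) *
      (Real.exp (-(314 / 25) * ρ) * GZ2 ρ) ^ N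

/-- statement of `G2_qa` -/
def HG2 : Prop := ∀ {N : ℕ} (_ : 1 ≤ N) (c : ℕ) (a b : ℚ) (_ : 0 ≤ a) (_ : 0 ≤ b) (ρ : ℝ)
    (_ : 0 ≤ ρ), ‖aeval (xv (24 * N + 1) (zv (c * N) (N * ρ))) (qa N a b)‖ ^ 2 ≤
      (N : ℝ) ^ 8 * Qb c a b ρ * (1 + 1 / (N : ℝ)) ^ 4

/-- statements of `G3_A`, `G3_B`, `G3_C`, with the constant `T = 2 ^ 30000` -/
def HG3A (T : ℝ) : Prop := ∀ (s : ℕ) (_ : s ≤ 5) (ρ : ℝ) (_ : 0 ≤ ρ),
    T * (Real.exp (-(314 / 25) * ρ) * GZ0 ρ * ∏ s' ∈ Finset.range s, Q1 0 s' ρ) ≤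
      2 ^ t1 s * GP0 ρ

def HG3B (T : ℝ) : Prop := ∀ (s : ℕ) (_ : s ≤ 5) (ρ : ℝ) (_ : 0 ≤ ρ),
    T * (Real.exp (-(314 / 25) * ρ) * GZ1 ρ * ∏ s' ∈ Finset.range s, Q1 24 s' ρ) ≤
      2 ^ t1 s * GP1 ρ

def HG3C (T : ℝ) : Prop := ∀ (s : ℕ) (_ : s ≤ 10) (ρ : ℝ) (_ : 0 ≤ ρ),
    T * (Real.exp (-(314 / 25) * ρ) * GZ2 ρ * ∏ s' ∈ Finset.range s, Q2 s' ρ) ≤
      2 ^ t2 s * GP1 ρ

/-- statement of `G4_monic` -/
def HG4m : Prop := ∀ {N : ℕ} (_ : 1 ≤ N) (i : ℕ) (_ : i < 480 * N),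
    (PN N i).Monic ∧ (PN N i).natDegree = i

/-- the weight on the contour -/
def fw (n U : ℕ) (r : ℝ) : ℝ :=
  ‖Rv n (zv U r)‖ * ‖xv n (zv U r)‖ ^ 500 * Real.exp (-(2 * Real.pi * r)) * (1 + r ^ 2)

theorem fw_nonneg (n U : ℕ) (r : ℝ) : 0 ≤ fw n U r := by
  unfold fw; positivity

theorem at1_nonneg (k : ℕ) (hk : k < 8) : 0 ≤ (at1 k).1 ∧ 0 ≤ (at1 k).2 := by
  interval_cases k <;> norm_num [at1, la1]

theorem at2_nonneg (k : ℕ) (hk : k < 34) : 0 ≤ (at2 k).1 ∧ 0 ≤ (at2 k).2 := by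
  interval_cases k <;> norm_num [at2, la2]

theorem sg1_sum (s : ℕ) (hs : s < 5) : ∑ k ∈ Finset.range 8, sg1 s k = 12 := by
  interval_cases s <;> rfl

theorem sg2_sum (s : ℕ) (hs : s < 10) : ∑ k ∈ Finset.range 34, sg2 s k = 18 := by
  interval_cases s <;> rfl

theorem t1_sum (s : ℕ) (hs : s ≤ 5) :
    ∑ s' ∈ Finset.range s, (t1 (s' + 1) - t1 s') + t1 0 = t1 s := by
  interval_cases s <;> rfl

theorem t2_sum (s : ℕ) (hs : s ≤ 10) :
    ∑ s' ∈ Finset.range s, (t2 (s' + 1) - t2 s') + t2 0 = t2 s := by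
  interval_cases s <;> rfl

/-- the polynomials without the factor `x ^ rem`, part 1 -/
theorem part1 (h2 : HG2) {N : ℕ} (hN : 1 ≤ N) {n : ℕ} (hn : n = 24 * N + 1) (c : ℕ) {T ρ : ℝ}
    (hρ : 0 ≤ ρ) (hT : 0 < T) {GP GZ Cst : ℝ} (hCst : 0 ≤ Cst) (hGP : 0 < GP) (hGZ : 0 ≤ GZ)
    (hG1 : fw n (c * N) (N * ρ) ^ 2 * GP ^ N ≤ Cst * (Real.exp (-(314 / 25) * ρ) * GZ) ^ N)
    (hG3 : ∀ s ≤ 5, T * (Real.exp (-(314 / 25) * ρ) * GZ *
      ∏ s' ∈ Finset.range s, Q1 c s' ρ) ≤ 2 ^ t1 s * GP) (i : ℕ) (hi : i < 120 * N) :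
    (fw n (c * N) (N * ρ) * ‖aeval (xv n (zv (c * N) (N * ρ)))
      (∏ s ∈ Finset.range 5, C1 N s ^ e1 N i s)‖ ^ 2) ^ 2 * T ^ N ≤
      Cst * (N : ℝ) ^ (8 * i) * Real.exp 1440 * 2 ^ EX N i := by
  have h := stage (S := 5) (d := 12) (g := fw n (c * N) (N * ρ))
    (core := ‖aeval (xv n (zv (c * N) (N * ρ))) (∏ s ∈ Finset.range 5, C1 N s ^ e1 N i s)‖)
    (Qs := fun s => Q1 c s ρ) (cs := fun s => ‖aeval (xv n (zv (c * N) (N * ρ))) (C1 N s)‖)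
    (t := t1) (e := e1 N i) (i := i) hN hT hCst hGP
    (mul_nonneg (Real.exp_pos _).le hGZ) (fun s => Q1_nonneg _ _ _) hG1 hG3 t1_sum
    (fun s => norm_nonneg _) (by
      intro s hs
      have := prod_bound 8 (xv n (zv (c * N) (N * ρ))) (fun k => qa N (at1 k).1 (at1 k).2)
        (sg1 s) ((N : ℝ) ^ 8) ((1 + 1 / (N : ℝ)) ^ 4) (fun k => Qb c (at1 k).1 (at1 k).2 ρ)
        (fun k hk => by
          rw [hn]
          exact h2 hN c _ _ (at1_nonneg k hk).1 (at1_nonneg k hk).2 ρ hρ)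
      rw [sg1_sum s hs] at this
      exact this)
    (by
      rw [map_prod, norm_prod]
      apply Finset.prod_congr rfl
      intro s _
      rw [map_pow, norm_pow])
    (e_anti 24 N i) (min_le_left _ _) ((sum_e 24 N i 5).trans (min_le_right _ _))
  have hEX : EX N i = t1 0 * N + ∑ s ∈ Finset.range 5, (t1 (s + 1) - t1 s) * e1 N i s := by
    unfold EX
    rw [if_pos hi]
  rw [hEX]
  refine h.trans ?_
  apply mul_le_mul_of_nonneg_right _ (by positivity)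
  apply mul_le_mul_of_nonneg_left _ (by positivity)
  apply Real.exp_le_exp.2
  norm_num

/-- part 2 -/
theorem part2 (h2 : HG2) {N : ℕ} (hN : 1 ≤ N) {n : ℕ} (hn : n = 24 * N + 1) {T ρ : ℝ}
    (hρ : 0 ≤ ρ) (hT : 0 < T) {GP GZ Cst : ℝ} (hCst : 0 ≤ Cst) (hGP : 0 < GP) (hGZ : 0 ≤ GZ)
    (hG1 : (fw n (24 * N) (N * ρ) * ‖aeval (xv n (zv (24 * N) (N * ρ))) (MU N)‖ ^ 2) ^ 2 * GP ^ N ≤
      Cst * (N : ℝ) ^ (960 * N) * (Real.exp (-(314 / 25) * ρ) * GZ) ^ N)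
    (hG3 : ∀ s ≤ 10, T * (Real.exp (-(314 / 25) * ρ) * GZ *
      ∏ s' ∈ Finset.range s, Q2 s' ρ) ≤ 2 ^ t2 s * GP) (i : ℕ) (hi : ¬ i < 120 * N) :
    (fw n (24 * N) (N * ρ) * ‖aeval (xv n (zv (24 * N) (N * ρ)))
      (MU N * ∏ s ∈ Finset.range 10, C2 N s ^ e2 N (i - 120 * N) s)‖ ^ 2) ^ 2 * T ^ N ≤
      Cst * (N : ℝ) ^ (8 * i) * Real.exp 1440 * 2 ^ EX N i := by
  have h := stage (S := 10) (d := 18)
    (g := fw n (24 * N) (N * ρ) * ‖aeval (xv n (zv (24 * N) (N * ρ))) (MU N)‖ ^ 2)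
    (core := ‖aeval (xv n (zv (24 * N) (N * ρ)))
      (∏ s ∈ Finset.range 10, C2 N s ^ e2 N (i - 120 * N) s)‖)
    (Qs := fun s => Q2 s ρ) (cs := fun s => ‖aeval (xv n (zv (24 * N) (N * ρ))) (C2 N s)‖)
    (t := t2) (e := e2 N (i - 120 * N)) (i := i - 120 * N) hN hT
    (mul_nonneg hCst (by positivity)) hGP
    (mul_nonneg (Real.exp_pos _).le hGZ) (fun s => Q2_nonneg _ _) hG1 hG3 t2_sum
    (fun s => norm_nonneg _) (by
      intro s hs
      have := prod_bound 34 (xv n (zv (24 * N) (N * ρ))) (fun k => qa N (at2 k).1 (at2 k).2)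
        (sg2 s) ((N : ℝ) ^ 8) ((1 + 1 / (N : ℝ)) ^ 4) (fun k => Qb 24 (at2 k).1 (at2 k).2 ρ)
        (fun k hk => by
          rw [hn]
          have := h2 hN 24 _ _ (at2_nonneg k hk).1 (at2_nonneg k hk).2 ρ hρ
          simpa using this)
      rw [sg2_sum s hs] at this
      exact this)
    (by
      rw [map_prod, norm_prod]
      apply Finset.prod_congr rfl
      intro s _
      rw [map_pow, norm_pow])
    (e_anti 36 N (i - 120 * N)) (min_le_left _ _)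
    ((sum_e 36 N (i - 120 * N) 10).trans (min_le_right _ _))
  have hEX : EX N i = t2 0 * N +
      ∑ s ∈ Finset.range 10, (t2 (s + 1) - t2 s) * e2 N (i - 120 * N) s := by
    unfold EX
    rw [if_neg hi]
  have hpow : (N : ℝ) ^ (960 * N) * (N : ℝ) ^ (8 * (i - 120 * N)) = (N : ℝ) ^ (8 * i) := by
    rw [← pow_add]
    congr 1
    omega
  rw [hEX, map_mul, norm_mul]
  calc (fw n (24 * N) (N * ρ) * (‖aeval (xv n (zv (24 * N) (N * ρ))) (MU N)‖ *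
      ‖aeval (xv n (zv (24 * N) (N * ρ)))
        (∏ s ∈ Finset.range 10, C2 N s ^ e2 N (i - 120 * N) s)‖) ^ 2) ^ 2 * T ^ N
      = (fw n (24 * N) (N * ρ) * ‖aeval (xv n (zv (24 * N) (N * ρ))) (MU N)‖ ^ 2 *
      ‖aeval (xv n (zv (24 * N) (N * ρ)))
        (∏ s ∈ Finset.range 10, C2 N s ^ e2 N (i - 120 * N) s)‖ ^ 2) ^ 2 * T ^ N := by ring
    _ ≤ _ := h
    _ = Cst * (N : ℝ) ^ (8 * i) * Real.exp ((8 * 18 * 10 : ℕ) : ℝ) *
        2 ^ (t2 0 * N + ∑ s ∈ Finset.range 10, (t2 (s + 1) - t2 s) * e2 N (i - 120 * N) s) := by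
      rw [← hpow]; ring
    _ ≤ _ := by
      apply mul_le_mul_of_nonneg_right _ (by positivity)
      apply mul_le_mul_of_nonneg_left _ (by positivity)
      apply Real.exp_le_exp.2
      norm_num

/-- the exponent of the bound of one index -/
def ax (N i : ℕ) : ℝ :=
  Lam * N + 8 * i * Real.log N + ((EX N i : ℝ) - 30000 * N) * Real.log 2

theorem conv {N i : ℕ} (hN : 1 ≤ N) {T A B : ℝ}
    (hT : T = Real.exp (((30000 : ℕ) : ℝ) * Real.log 2))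
    (h : A * T ^ N ≤ B * Real.exp (Lam * N) * (N : ℝ) ^ (8 * i) * Real.exp 1440 * 2 ^ EX N i) :
    A ≤ B * Real.exp 1440 * Real.exp (ax N i) := by
  have hN0 : (0 : ℝ) < N := by exact_mod_cast hN
  have e1 : T ^ N = Real.exp (30000 * N * Real.log 2) := by
    rw [hT, ← Real.exp_nat_mul]
    congr 1
    push_cast
    ring
  have e2 : (N : ℝ) ^ (8 * i) = Real.exp (8 * i * Real.log N) := by
    have : (8 * i * Real.log N : ℝ) = ((8 * i : ℕ) : ℝ) * Real.log N := by push_cast; ring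
    rw [this, Real.exp_nat_mul, Real.exp_log hN0]
  rw [e1, e2, pow_eq_exp] at h
  have e3 : B * Real.exp (Lam * N) * Real.exp (8 * i * Real.log N) * Real.exp 1440 *
      Real.exp ((EX N i : ℕ) * Real.log 2) =
      (B * Real.exp 1440 * Real.exp (ax N i)) * Real.exp (30000 * N * Real.log 2) := by
    have : Real.exp (Lam * N) * Real.exp (8 * i * Real.log N) *
        Real.exp ((EX N i : ℕ) * Real.log 2) =
        Real.exp (ax N i) * Real.exp (30000 * N * Real.log 2) := by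
      rw [← Real.exp_add, ← Real.exp_add, ← Real.exp_add]
      congr 1
      unfold ax
      ring
    calc _ = (B * Real.exp 1440) * (Real.exp (Lam * N) * Real.exp (8 * i * Real.log N) *
        Real.exp ((EX N i : ℕ) * Real.log 2)) := by ring
      _ = _ := by rw [this]; ring
  rw [e3] at h
  exact le_of_mul_le_mul_right h (Real.exp_pos _)

/-- one index -/
theorem index (h10 : HG10) (h11 : HG11) (h12 : HG12) (h2 : HG2) {T : ℝ}
    (hT : T = Real.exp (((30000 : ℕ) : ℝ) * Real.log 2)) (hA : HG3A T) (hB : HG3B T)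
    (hC : HG3C T) : ∃ (CC : ℝ) (K : ℕ), 1 ≤ CC ∧ ∀ N : ℕ, 1 ≤ N → ∀ n : ℕ, n = 24 * N + 1 →
    ∀ i U : ℕ, (U = 24 * N ∨ (U = 0 ∧ i < 120 * N)) →
    ∃ (R : ℚ[X]) (m : ℕ), m ≤ 35 ∧ PN N i = R * X ^ m ∧ ∀ r : ℝ, 0 ≤ r →
      (fw n U r * ‖aeval (xv n (zv U r)) R‖ ^ 2) ^ 2 ≤ CC * (n : ℝ) ^ K * Real.exp (ax N i) := by
  obtain ⟨C0, K0, hC0, h10⟩ := h10
  obtain ⟨C1', K1', hC1, h11⟩ := h11
  obtain ⟨C2', K2', hC2, h12⟩ := h12
  have hT0 : 0 < T := by rw [hT]; exact Real.exp_pos _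
  have hexp : (1 : ℝ) ≤ Real.exp 1440 := Real.one_le_exp (by norm_num)
  refine ⟨(C0 + C1' + C2' + 1) * Real.exp 1440, K0 + K1' + K2', by nlinarith, ?_⟩
  intro N hN n hn i U hU
  have hN0 : (0 : ℝ) < N := by exact_mod_cast hN
  have hn1 : (1 : ℝ) ≤ n := by
    have : 1 ≤ n := by omega
    exact_mod_cast this
  have up : ∀ (C : ℝ) (K : ℕ), 0 < C → C ≤ C0 + C1' + C2' + 1 → K ≤ K0 + K1' + K2' →
      C * (n : ℝ) ^ K * Real.exp 1440 * Real.exp (ax N i) ≤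
      (C0 + C1' + C2' + 1) * Real.exp 1440 * (n : ℝ) ^ (K0 + K1' + K2') * Real.exp (ax N i) := by
    intro C K hC hC' hK
    apply mul_le_mul_of_nonneg_right _ (Real.exp_pos _).le
    have h1 : (n : ℝ) ^ K ≤ (n : ℝ) ^ (K0 + K1' + K2') := pow_le_pow_right₀ hn1 hK
    have h2 : C * (n : ℝ) ^ K ≤ (C0 + C1' + C2' + 1) * (n : ℝ) ^ (K0 + K1' + K2') :=
      mul_le_mul hC' h1 (by positivity) (by positivity)
    calc C * (n : ℝ) ^ K * Real.exp 1440 ≤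
        ((C0 + C1' + C2' + 1) * (n : ℝ) ^ (K0 + K1' + K2')) * Real.exp 1440 :=
          mul_le_mul_of_nonneg_right h2 (Real.exp_pos _).le
      _ = _ := by ring
  by_cases hi : i < 120 * N
  · refine ⟨∏ s ∈ Finset.range 5, C1 N s ^ e1 N i s, i % 24, by omega, ?_, ?_⟩
    · unfold PN
      rw [if_pos hi]
      rfl
    · intro r hr
      have hρ : 0 ≤ r / N := by positivity
      have hr' : (N : ℝ) * (r / N) = r := by field_simp
      rcases hU with hU | ⟨hU, -⟩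
      · have h := part1 h2 hN hn 24 hρ hT0 (GP := GP1 (r / N)) (GZ := GZ1 (r / N))
          (Cst := C1' * (n : ℝ) ^ K1' * Real.exp (Lam * N)) (by positivity) (GP1_pos hρ)
          (GZ1_nonneg _) (h11 N hN n hn (r / N) hρ) (fun s hs => by
            have := hB s hs (r / N) hρ
            simpa using this) i hi
        rw [hr', ← hU] at h
        exact (conv hN hT h).trans (up C1' K1' hC1 (by linarith) (by omega))
      · have h := part1 h2 hN hn 0 hρ hT0 (GP := GP0 (r / N)) (GZ := GZ0 (r / N))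
          (Cst := C0 * (n : ℝ) ^ K0 * Real.exp (Lam * N)) (by positivity) (GP0_pos hρ)
          (GZ0_nonneg _) (by
            rw [zero_mul]
            exact h10 N hN n hn (r / N) hρ) (fun s hs => by
            have := hA s hs (r / N) hρ
            simpa using this) i hi
        rw [hr', zero_mul] at h
        rw [hU]
        exact (conv hN hT h).trans (up C0 K0 hC0 (by linarith) (by omega))
  · refine ⟨MU N * ∏ s ∈ Finset.range 10, C2 N s ^ e2 N (i - 120 * N) s, (i - 120 * N) % 36,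
      by omega, ?_, ?_⟩
    · unfold PN
      rw [if_neg hi]
      unfold P2
      ring
    · intro r hr
      have hρ : 0 ≤ r / N := by positivity
      have hr' : (N : ℝ) * (r / N) = r := by field_simp
      rcases hU with hU | ⟨-, hU⟩
      · have h := part2 h2 hN hn hρ hT0 (GP := GP1 (r / N)) (GZ := GZ2 (r / N))
          (Cst := C2' * (n : ℝ) ^ K2' * Real.exp (Lam * N)) (by positivity) (GP1_pos hρ)
          (GZ2_nonneg _) (h12 N hN n hn (r / N) hρ) (fun s hs => hC s hs (r / N) hρ) i hi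
        rw [hr', ← hU] at h
        exact (conv hN hT h).trans (up C2' K2' hC2 (by linarith) (by omega))
      · exact absurd hU hi

/-- `G4_entry`, with the analytic inputs as hypotheses -/
theorem G4_entry_of (hV2 : HV2) (h10 : HG10) (h11 : HG11) (h12 : HG12) (h2 : HG2) {T : ℝ}
    (hT : T = Real.exp (((30000 : ℕ) : ℝ) * Real.log 2)) (hA : HG3A T) (hB : HG3B T)
    (hC : HG3C T) (hm : HG4m) :
    ∃ (C : ℝ) (K : ℕ), 0 < C ∧ ∀ N : ℕ, 1 ≤ N → ∀ n : ℕ, n = 24 * N + 1 → ∀ u : ℕ → ℚ,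
    (∀ i ∈ ({3, 5, 7, 9} : Finset ℕ), zr (i + 4) = (u i : ℝ)) →
    ∀ i < 480 * N, ∀ j < 480 * N, |((NL n u (PN N i * PN N j) : ℚ) : ℝ)| ≤ C * (n : ℝ) ^ K *
      Real.exp ((2 * (Lam * N) + 8 * (i + j) * Real.log N +
        ((EX N i : ℝ) + EX N j - 60000 * N) * Real.log 2) / 4) := by
  obtain ⟨Cv, hCv, hV2⟩ := hV2
  obtain ⟨CC, K, hCC, hind⟩ := index h10 h11 h12 h2 hT hA hB hC
  have hCC0 : 0 < CC := by linarith
  refine ⟨Cv * CC, K, by positivity, ?_⟩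
  intro N hN n hn u hu i hi j hj
  have hn1 : (1 : ℝ) ≤ n := by
    have : 1 ≤ n := by omega
    exact_mod_cast this
  obtain ⟨U, hUi, hUj, hUd⟩ : ∃ U : ℕ, (U = 24 * N ∨ (U = 0 ∧ i < 120 * N)) ∧
      (U = 24 * N ∨ (U = 0 ∧ j < 120 * N)) ∧
      (∀ t < U, (X - Polynomial.C (xq n t)) ^ 5 ∣ PN N i * PN N j) := by
    by_cases h : i < 120 * N ∧ j < 120 * N
    · exact ⟨0, Or.inr ⟨rfl, h.1⟩, Or.inr ⟨rfl, h.2⟩, fun t ht => absurd ht (by omega)⟩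
    · refine ⟨24 * N, Or.inl rfl, Or.inl rfl, fun t ht => ?_⟩
      have h1 : (X - Polynomial.C (xq n t)) ^ 5 ∣ MU N := by
        unfold MU
        rw [hn]
        exact Finset.dvd_prod_of_mem (fun u => (X - Polynomial.C (xq (24 * N + 1) u)) ^ 5)
          (Finset.mem_range.2 ht)
      by_cases hi' : i < 120 * N
      · have hj' : ¬ j < 120 * N := fun h' => h ⟨hi', h'⟩
        have h2 : MU N ∣ PN N j := by
          unfold PN
          rw [if_neg hj']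
          exact Dvd.intro _ rfl
        exact (h1.trans h2).trans (Dvd.intro_left _ rfl)
      · have h2 : MU N ∣ PN N i := by
          unfold PN
          rw [if_neg hi']
          exact Dvd.intro _ rfl
        exact (h1.trans h2).trans (Dvd.intro _ rfl)
  obtain ⟨Ri, mi, hmi, hPi, hbi⟩ := hind N hN n hn i U hUi
  obtain ⟨Rj, mj, hmj, hPj, hbj⟩ := hind N hN n hn j U hUj
  have hexp : (2 * (Lam * N) + 8 * (i + j) * Real.log N +
        ((EX N i : ℝ) + EX N j - 60000 * N) * Real.log 2) / 4 = (ax N i + ax N j) / 4 := by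
    unfold ax; ring
  have hdeg : (PN N i * PN N j).natDegree ≤ 40 * n - 42 := by
    have h1 := Polynomial.natDegree_mul_le (p := PN N i) (q := PN N j)
    rw [(hm hN i hi).2, (hm hN j hj).2] at h1
    omega
  rw [hexp, mul_assoc Cv CC, mul_assoc Cv]
  refine hV2 n (by omega) u hu _ hdeg U hUd _ ?_
  intro r hr
  have hx := one_le_xv (n := n) (U := U) (by omega : 1 ≤ n) hr
  have hr1 : 0 < 1 + r ^ 2 := by positivity
  rw [← div_eq_mul_inv, le_div_iff₀ hr1, map_mul, norm_mul, hPi, hPj, map_mul, map_mul, map_pow,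
    map_pow, aeval_X, norm_mul, norm_mul, norm_pow, norm_pow]
  have hbi' := hbi r hr
  have hbj' := hbj r hr
  set x : ℝ := ‖xv n (zv U r)‖ with hxd
  set a : ℝ := ‖aeval (xv n (zv U r)) Ri‖ with had
  set b : ℝ := ‖aeval (xv n (zv U r)) Rj‖ with hbd
  have ha : 0 ≤ a := norm_nonneg _
  have hb : 0 ≤ b := norm_nonneg _
  have hx0 : 0 ≤ x := norm_nonneg _
  set f0 : ℝ := ‖Rv n (zv U r)‖ * Real.exp (-(2 * Real.pi * r)) * (1 + r ^ 2) with hf0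
  have hf00 : 0 ≤ f0 := by rw [hf0]; positivity
  have hfw : fw n U r = f0 * x ^ 500 := by
    rw [hf0, hxd]; unfold fw; ring
  have hL : ‖Rv n (zv U r)‖ * x ^ 45 * (a * x ^ mi * (b * x ^ mj)) *
      Real.exp (-(2 * Real.pi * r)) * (1 + r ^ 2) ≤ f0 * x ^ 500 * a * b := by
    have h1 : x ^ (45 + mi + mj) ≤ x ^ 500 := pow_le_pow_right₀ hx (by omega)
    calc _ = f0 * x ^ (45 + mi + mj) * a * b := by
          rw [hf0, pow_add, pow_add]; ring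
      _ ≤ _ := by
          apply mul_le_mul_of_nonneg_right _ hb
          apply mul_le_mul_of_nonneg_right _ ha
          exact mul_le_mul_of_nonneg_left h1 hf00
  refine hL.trans ?_
  have hnK : (1 : ℝ) ≤ (n : ℝ) ^ K := one_le_pow₀ hn1
  have hCn : 1 ≤ CC * (n : ℝ) ^ K := by nlinarith
  have h4 : (f0 * x ^ 500 * a * b) ^ 4 ≤
      (CC * (n : ℝ) ^ K * Real.exp ((ax N i + ax N j) / 4)) ^ 4 := by
    rw [hfw] at hbi' hbj'
    calc (f0 * x ^ 500 * a * b) ^ 4 = (f0 * x ^ 500 * a ^ 2) ^ 2 * (f0 * x ^ 500 * b ^ 2) ^ 2 := by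
          ring
      _ ≤ (CC * (n : ℝ) ^ K * Real.exp (ax N i)) * (CC * (n : ℝ) ^ K * Real.exp (ax N j)) :=
          mul_le_mul hbi' hbj' (by positivity) (by positivity)
      _ = (CC * (n : ℝ) ^ K) ^ 2 * Real.exp (ax N i + ax N j) := by
          rw [Real.exp_add]; ring
      _ ≤ (CC * (n : ℝ) ^ K) ^ 4 * Real.exp (ax N i + ax N j) := by
          apply mul_le_mul_of_nonneg_right _ (Real.exp_pos _).le
          exact pow_le_pow_right₀ hCn (by norm_num)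
      _ = _ := by
          have : Real.exp (ax N i + ax N j) = Real.exp ((ax N i + ax N j) / 4) ^ 4 := by
            rw [← Real.exp_nat_mul]; congr 1; push_cast; ring
          rw [this]; ring
  exact le_of_pow_le_pow_left₀ (four_ne_zero : (4:ℕ) ≠ 0) (by positivity) h4

end G4eAux

end

end Pool.Agent.J6H37.Z13
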