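import Pool.Agent.J6H37.Z13.Defs

/-!
# The local Hankel determinant is nonzero (task H5)

Everything is computed modulo `101`; the certificate is the inverse matrix.
-/

set_option autoImplicit false

open Polynomial Pool.Agent.H337R2

namespace Pool.Agent.J6H37.Z13

namespace H5

theorem prime101 : Nat.Prime 101 := by norm_num

local instance fact101 : Fact (Nat.Prime 101) := ⟨prime101⟩

/-- `x` is integral at `101` with residue `a` -/
def Rd (x : ℚ) (a : ZMod 101) : Prop := ∃ m : ℤ, (m : ZMod 101) = a ∧ padicNorm 101 (x - m) < 1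

theorem Rd.le_one {x : ℚ} {a : ZMod 101} (h : Rd x a) : padicNorm 101 x ≤ 1 := by
  obtain ⟨m, -, h2⟩ := h
  have e : x = (x - m) + m := by ring
  rw [e]
  exact (padicNorm.nonarchimedean).trans (max_le h2.le (padicNorm.of_int m))

theorem Rd.int (m : ℤ) : Rd (m : ℚ) (m : ZMod 101) := ⟨m, rfl, by simp⟩

theorem Rd.nat (m : ℕ) : Rd (m : ℚ) (m : ZMod 101) := by
  have := Rd.int (m : ℤ)
  push_cast at this
  exact this

theorem Rd.zero : Rd 0 0 := by
  have := Rd.int 0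
  push_cast at this
  exact this

theorem Rd.one : Rd 1 1 := by
  have := Rd.int 1
  push_cast at this
  exact this

theorem Rd.add {x y : ℚ} {a b : ZMod 101} (h : Rd x a) (h' : Rd y b) : Rd (x + y) (a + b) := by
  obtain ⟨m, h1, h2⟩ := h
  obtain ⟨m', h1', h2'⟩ := h'
  refine ⟨m + m', by push_cast; rw [h1, h1'], ?_⟩
  have e : x + y - ((m + m' : ℤ) : ℚ) = (x - m) + (y - m') := by push_cast; ring
  rw [e]
  exact (padicNorm.nonarchimedean).trans_lt (max_lt h2 h2')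

theorem Rd.neg {x : ℚ} {a : ZMod 101} (h : Rd x a) : Rd (-x) (-a) := by
  obtain ⟨m, h1, h2⟩ := h
  refine ⟨-m, by push_cast; rw [h1], ?_⟩
  have e : -x - ((-m : ℤ) : ℚ) = -(x - m) := by push_cast; ring
  rw [e, padicNorm.neg]
  exact h2

theorem Rd.sub {x y : ℚ} {a b : ZMod 101} (h : Rd x a) (h' : Rd y b) : Rd (x - y) (a - b) := by
  rw [sub_eq_add_neg, sub_eq_add_neg]
  exact h.add h'.neg

theorem Rd.mul {x y : ℚ} {a b : ZMod 101} (h : Rd x a) (h' : Rd y b) : Rd (x * y) (a * b) := by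
  have hy := h'.le_one
  obtain ⟨m, h1, h2⟩ := h
  obtain ⟨m', h1', h2'⟩ := h'
  refine ⟨m * m', by push_cast; rw [h1, h1'], ?_⟩
  have e : x * y - ((m * m' : ℤ) : ℚ) = (x - m) * y + m * (y - m') := by push_cast; ring
  rw [e]
  refine (padicNorm.nonarchimedean).trans_lt (max_lt ?_ ?_)
  · rw [padicNorm.mul]
    exact mul_lt_one_of_nonneg_of_lt_one_left (padicNorm.nonneg _) h2 hy
  · rw [padicNorm.mul]
    exact mul_lt_one_of_nonneg_of_lt_one_right (padicNorm.of_int m) (padicNorm.nonneg _) h2'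

theorem Rd.pow {x : ℚ} {a : ZMod 101} (h : Rd x a) (n : ℕ) : Rd (x ^ n) (a ^ n) := by
  induction n with
  | zero => simpa using Rd.one
  | succ n ih => rw [pow_succ, pow_succ]; exact ih.mul h

theorem Rd.sum {ι : Type*} (s : Finset ι) (f : ι → ℚ) (g : ι → ZMod 101)
    (h : ∀ i ∈ s, Rd (f i) (g i)) : Rd (∑ i ∈ s, f i) (∑ i ∈ s, g i) := by
  classical
  induction s using Finset.induction_on with
  | empty => simpa using Rd.zero
  | insert a s ha ih =>
    rw [Finset.sum_insert ha, Finset.sum_insert ha]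
    exact (h a (Finset.mem_insert_self _ _)).add
      (ih fun i hi => h i (Finset.mem_insert_of_mem hi))

theorem Rd.prod {ι : Type*} (s : Finset ι) (f : ι → ℚ) (g : ι → ZMod 101)
    (h : ∀ i ∈ s, Rd (f i) (g i)) : Rd (∏ i ∈ s, f i) (∏ i ∈ s, g i) := by
  classical
  induction s using Finset.induction_on with
  | empty => simpa using Rd.one
  | insert a s ha ih =>
    rw [Finset.prod_insert ha, Finset.prod_insert ha]
    exact (h a (Finset.mem_insert_self _ _)).mul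
      (ih fun i hi => h i (Finset.mem_insert_of_mem hi))

theorem Rd.det {n : ℕ} (M : Matrix (Fin n) (Fin n) ℚ) (A : Matrix (Fin n) (Fin n) (ZMod 101))
    (h : ∀ i j, Rd (M i j) (A i j)) : Rd M.det A.det := by
  rw [Matrix.det_apply', Matrix.det_apply']
  apply Rd.sum
  intro σ _
  apply Rd.mul (Rd.int _)
  apply Rd.prod
  intro i _
  exact h _ _

theorem zmod_zero (m : ℤ) : ((m : ZMod 101) = 0) ↔ padicNorm 101 (m : ℚ) < 1 := by
  rw [padicNorm.int_lt_one_iff, ZMod.intCast_zmod_eq_zero_iff_dvd]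

theorem Rd.ne_zero {x : ℚ} {a : ZMod 101} (h : Rd x a) (ha : a ≠ 0) : x ≠ 0 := by
  rintro rfl
  obtain ⟨m, h1, h2⟩ := h
  apply ha
  rw [← h1, zmod_zero]
  rwa [zero_sub, padicNorm.neg] at h2

theorem Rd.inv {x : ℚ} {a b : ZMod 101} (h : Rd x a) (hab : a * b = 1) : Rd x⁻¹ b := by
  have hx0 : x ≠ 0 := h.ne_zero (by rintro rfl; simp at hab)
  obtain ⟨m, h1, h2⟩ := h
  obtain ⟨m', h1'⟩ := ZMod.intCast_surjective b
  have hm : ((m : ZMod 101)) ≠ 0 := by
    rw [h1]; rintro rfl; simp at hab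
  have hm1 : padicNorm 101 (m : ℚ) = 1 := by
    rw [padicNorm.int_eq_one_iff]
    intro hd
    exact hm ((ZMod.intCast_zmod_eq_zero_iff_dvd m 101).2 hd)
  have hx1 : padicNorm 101 x = 1 := by
    have e : x = (x - m) + m := by ring
    rw [e, padicNorm.add_eq_max_of_ne (by rw [hm1]; exact h2.ne), hm1]
    exact max_eq_right h2.le
  refine ⟨m', h1', ?_⟩
  have e : x⁻¹ - m' = (((1 - m * m' : ℤ) : ℚ) + m' * ((m : ℚ) - x)) / x := by
    push_cast; field_simp; ring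
  rw [e, padicNorm.div, hx1, div_one]
  refine (padicNorm.nonarchimedean).trans_lt (max_lt ?_ ?_)
  · rw [← zmod_zero]
    push_cast
    rw [h1, h1', hab, sub_self]
  · rw [padicNorm.mul, ← padicNorm.neg ((m : ℚ) - x), neg_sub]
    exact mul_lt_one_of_nonneg_of_lt_one_right (padicNorm.of_int m') (padicNorm.nonneg _) h2

/-! ### lists modulo 101 -/

/-- multiplication by `X + c`, with carry -/
def mulS (c : ℕ) : ℕ → List ℕ → List ℕ
  | _, [] => []
  | prev, a :: l => ((prev + c * a) % 101) :: mulS c a l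

/-- division by `X + a`, where `a' = 1 / a`, with carry -/
def divS (a' : ℕ) : ℕ → List ℕ → List ℕ
  | _, [] => []
  | prev, x :: l => ((x + (101 - prev)) * a' % 101) :: divS a' ((x + (101 - prev)) * a' % 101) l

theorem mulS_length (c : ℕ) (l : List ℕ) : ∀ prev, (mulS c prev l).length = l.length := by
  induction l with
  | nil => intro _; rfl
  | cons a l ih => intro prev; simp [mulS, ih]

theorem divS_length (c : ℕ) (l : List ℕ) : ∀ prev, (divS c prev l).length = l.length := by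
  induction l with
  | nil => intro _; rfl
  | cons a l ih => intro prev; simp [divS, ih]

theorem mulS_spec (c : ℕ) (c' : ℚ) (hc : Rd c' (c : ZMod 101)) (l : List ℕ) : ∀ (prev : ℕ) (x : ℚ)
    (f : ℕ → ℚ), Rd x (prev : ZMod 101) →
    (∀ d < l.length, Rd (f d) ((l.getD d 0 : ℕ) : ZMod 101)) →
    ((0 < l.length → Rd (x + c' * f 0) (((mulS c prev l).getD 0 0 : ℕ) : ZMod 101)) ∧
      ∀ d, d + 1 < l.length → Rd (f d + c' * f (d + 1))
        (((mulS c prev l).getD (d + 1) 0 : ℕ) : ZMod 101)) := by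
  induction l with
  | nil =>
    intro prev x f _ _
    refine ⟨fun h => absurd h (by simp), fun d h => absurd h (by simp)⟩
  | cons a l ih =>
    intro prev x f hx hf
    have h0 : Rd (f 0) (a : ZMod 101) := by
      have := hf 0 (by simp)
      simpa using this
    have hih := ih a (f 0) (fun d => f (d + 1)) h0 (fun d hd => by
      have := hf (d + 1) (by simpa using hd)
      simpa using this)
    refine ⟨fun _ => ?_, fun d hd => ?_⟩
    · have e : (((mulS c prev (a :: l)).getD 0 0 : ℕ) : ZMod 101) =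
          (prev : ZMod 101) + (c : ZMod 101) * (a : ZMod 101) := by
        simp only [mulS, List.getD_cons_zero, ZMod.natCast_mod]
        push_cast
        rfl
      rw [e]
      exact hx.add (hc.mul h0)
    · have e : (mulS c prev (a :: l)).getD (d + 1) 0 = (mulS c a l).getD d 0 := by
        simp only [mulS, List.getD_cons_succ]
      rw [e]
      cases d with
      | zero => exact hih.1 (by simpa using hd)
      | succ d => exact hih.2 d (by simpa using hd)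

theorem divS_spec (c : ℕ) (c' : ℚ) (hc : Rd c' (c : ZMod 101)) (l : List ℕ) : ∀ (prev : ℕ) (x : ℚ)
    (f g : ℕ → ℚ), prev ≤ 101 → Rd x (prev : ZMod 101) →
    (∀ d < l.length, Rd (f d) ((l.getD d 0 : ℕ) : ZMod 101)) →
    (g 0 = (f 0 - x) * c') → (∀ d, g (d + 1) = (f (d + 1) - g d) * c') →
    ∀ d, d < l.length → Rd (g d) (((divS c prev l).getD d 0 : ℕ) : ZMod 101) := by
  induction l with
  | nil =>
    intro prev x f g _ _ _ _ _ d h
    exact absurd h (by simp)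
  | cons a l ih =>
    intro prev x f g hp hx hf hg0 hg d hd
    have h0 : Rd (f 0) (a : ZMod 101) := by
      have := hf 0 (by simp)
      simpa using this
    have hz : ((101 : ℕ) : ZMod 101) = 0 := ZMod.natCast_self 101
    have h1 : Rd (g 0) ((((a + (101 - prev)) * c % 101 : ℕ)) : ZMod 101) := by
      rw [ZMod.natCast_mod, Nat.cast_mul, Nat.cast_add, Nat.cast_sub hp, hz, hg0]
      have := (h0.sub hx).mul hc
      rw [zero_sub, ← sub_eq_add_neg]
      exact this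
    cases d with
    | zero =>
      simp only [divS, List.getD_cons_zero]
      exact h1
    | succ d =>
      simp only [divS, List.getD_cons_succ]
      exact ih _ (g 0) (fun d => f (d + 1)) (fun d => g (d + 1)) (Nat.mod_lt _ (by norm_num)).le h1
        (fun d hd => by
          have := hf (d + 1) (by simpa using hd)
          simpa using this) (hg 0) (fun d => hg (d + 1)) d (by simpa using hd)

/-- `l` is the list of the first ten coefficients of `f` modulo `101` -/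
def Rp (f : PowerSeries ℚ) (l : List ℕ) : Prop :=
  l.length = 10 ∧ ∀ d < 10, Rd (PowerSeries.coeff d f) ((l.getD d 0 : ℕ) : ZMod 101)

theorem Rp.mulS {f : PowerSeries ℚ} {l : List ℕ} (h : Rp f l) {c' : ℚ} {c : ℕ}
    (hc : Rd c' (c : ZMod 101)) :
    Rp (f * (PowerSeries.X + PowerSeries.C c')) (mulS c 0 l) := by
  refine ⟨by rw [mulS_length, h.1], ?_⟩
  have key := mulS_spec c c' hc l 0 0 (fun d => PowerSeries.coeff d f)
    (by simpa using Rd.zero) (fun d hd => h.2 d (by rw [h.1] at hd; exact hd))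
  intro d hd
  rw [mul_add, map_add, PowerSeries.coeff_mul_C]
  cases d with
  | zero =>
    have := key.1 (by rw [h.1]; norm_num)
    rw [PowerSeries.coeff_zero_mul_X, mul_comm]
    exact this
  | succ d =>
    have := key.2 d (by rw [h.1]; exact hd)
    rw [PowerSeries.coeff_succ_mul_X, mul_comm (PowerSeries.coeff (d + 1) f)]
    exact this

theorem Rp.divS {f : PowerSeries ℚ} {l : List ℕ} (h : Rp f l) {a : ℚ} (ha : a ≠ 0) {c : ℕ}
    (hc : Rd a⁻¹ (c : ZMod 101)) :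
    Rp (f * iv a) (divS c 0 l) := by
  refine ⟨by rw [divS_length, h.1], ?_⟩
  have hg : (f * iv a) * (PowerSeries.X + PowerSeries.C a) = f := by
    rw [mul_assoc, mul_comm (iv a), lin_mul_iv ha, mul_one]
  intro d hd
  refine divS_spec c a⁻¹ hc l 0 0 (fun d => PowerSeries.coeff d f)
    (fun d => PowerSeries.coeff d (f * iv a)) (by norm_num)
    (by simpa using Rd.zero) (fun d hd => h.2 d (by rw [h.1] at hd; exact hd)) ?_ ?_ d
    (by rw [h.1]; exact hd)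
  · have := congrArg (PowerSeries.coeff 0) hg
    rw [mul_add, map_add, PowerSeries.coeff_mul_C, PowerSeries.coeff_zero_mul_X] at this
    rw [← this]
    field_simp
    ring
  · intro d
    have := congrArg (PowerSeries.coeff (d + 1)) hg
    rw [mul_add, map_add, PowerSeries.coeff_mul_C, PowerSeries.coeff_succ_mul_X] at this
    rw [← this]
    field_simp
    ring

/-- iteration -/
def it (f : List ℕ → List ℕ) : ℕ → List ℕ → List ℕ
  | 0, l => l
  | n + 1, l => it f n (f l)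

theorem Rp.mulS_pow {c' : ℚ} {c : ℕ} (hc : Rd c' (c : ZMod 101)) (n : ℕ) :
    ∀ {f : PowerSeries ℚ} {l : List ℕ}, Rp f l →
    Rp (f * (PowerSeries.X + PowerSeries.C c') ^ n) (it (H5.mulS c 0) n l) := by
  induction n with
  | zero => intro f l h; simpa [it] using h
  | succ n ih =>
    intro f l h
    rw [pow_succ', ← mul_assoc]
    exact ih (h.mulS hc)

theorem Rp.divS_pow {a : ℚ} (ha : a ≠ 0) {c : ℕ} (hc : Rd a⁻¹ (c : ZMod 101)) (n : ℕ) :
    ∀ {f : PowerSeries ℚ} {l : List ℕ}, Rp f l →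
    Rp (f * iv a ^ n) (it (H5.divS c 0) n l) := by
  induction n with
  | zero => intro f l h; simpa [it] using h
  | succ n ih =>
    intro f l h
    rw [pow_succ', ← mul_assoc]
    exact ih (h.divS ha hc)

/-- inverse modulo 101 -/
def iv101 (k : ℕ) : ℕ := k ^ 99 % 101

theorem iv101_spec : ∀ k < 120, k ≠ 0 → k ≠ 101 → k * iv101 k % 101 = 1 := by
  decide +kernel

theorem iv101_mul {k : ℕ} (h : k < 120) (h0 : k ≠ 0) (h1 : k ≠ 101) :
    (k : ZMod 101) * (iv101 k : ZMod 101) = 1 := by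
  have := congrArg (fun z : ℕ => (z : ZMod 101)) (iv101_spec k h h0 h1)
  simp only [ZMod.natCast_mod, Nat.cast_mul, Nat.cast_one] at this
  exact this

/-- the other poles -/
def bs (j : ℕ) : List ℕ := (List.range' 3 10).filter (fun b => b ≠ j)

/-- the base list -/
def bl (j : ℕ) : List ℕ :=
  (bs j).foldl (fun l b => it (divS (iv101 (101 + b - j)) 0) 10 l)
    (it (mulS (116 - j) 0) 5 (it (mulS (115 - j) 0) 5 (it (mulS (102 - j) 0) 5
      (it (mulS (101 - j) 0) 5 [1, 0, 0, 0, 0, 0, 0, 0, 0, 0]))))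

/-- the base series -/
noncomputable def bser (j : ℕ) : PowerSeries ℚ :=
  ((PowerSeries.X + PowerSeries.C (-(j : ℚ))) * (PowerSeries.X + PowerSeries.C (1 - (j : ℚ))) *
    (PowerSeries.X + PowerSeries.C (14 - (j : ℚ))) * (PowerSeries.X + PowerSeries.C (15 - (j : ℚ)))) ^ 5 *
  (∏ b ∈ (Finset.Icc 3 12).erase j, iv ((b : ℚ) - j) ^ 10)

theorem ser_eq (j e : ℕ) : ser j e =
    bser j * (PowerSeries.X + PowerSeries.C (-(j : ℚ))) ^ e := rfl

theorem rd_shift (j r c : ℕ) (hc : c = 101 + r) (hj : j ≤ 12) :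
    Rd ((r : ℚ) - (j : ℚ)) ((c - j : ℕ) : ZMod 101) := by
  have h := Rd.int ((r : ℤ) - (j : ℤ))
  have e : (((r : ℤ) - (j : ℤ) : ℤ) : ZMod 101) = ((c - j : ℕ) : ZMod 101) := by
    rw [Nat.cast_sub (by omega), hc, Nat.cast_add, ZMod.natCast_self]
    push_cast
    ring
  rw [e] at h
  push_cast at h
  exact h

theorem fold_rep (j : ℕ) (hj : j ≤ 12) (bl : List ℕ) : ∀ (f : PowerSeries ℚ) (l : List ℕ),
    (∀ b ∈ bl, b ≠ j ∧ b ≤ 12) → Rp f l →
    Rp (f * (bl.map (fun b : ℕ => iv ((b : ℚ) - j) ^ 10)).prod)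
      (bl.foldl (fun l b => it (divS (iv101 (101 + b - j)) 0) 10 l) l) := by
  induction bl with
  | nil => intro f l _ h; simpa using h
  | cons b bl ih =>
    intro f l hb h
    rw [List.map_cons, List.prod_cons, List.foldl_cons, ← mul_assoc]
    apply ih _ _ (fun b' hb' => hb b' (List.mem_cons_of_mem _ hb'))
    obtain ⟨h1, h2⟩ := hb b (List.mem_cons_self)
    have hne : (b : ℚ) - (j : ℚ) ≠ 0 := by
      rw [sub_ne_zero]
      exact_mod_cast h1
    apply Rp.divS_pow hne _ 10 h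
    exact (rd_shift j b (101 + b) rfl hj).inv (iv101_mul (by omega) (by omega) (by omega))

theorem bser_rep (j : ℕ) (h3 : 3 ≤ j) (hj : j ≤ 12) : Rp (bser j) (bl j) := by
  have h0 : Rp (1 : PowerSeries ℚ) [1, 0, 0, 0, 0, 0, 0, 0, 0, 0] := by
    refine ⟨rfl, ?_⟩
    intro d hd
    rw [PowerSeries.coeff_one]
    interval_cases d <;> simp [Rd.one, Rd.zero]
  have h1 := Rp.mulS_pow (rd_shift j 0 101 rfl hj) 5 h0
  have h2 := Rp.mulS_pow (rd_shift j 1 102 rfl hj) 5 h1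
  have h4 := Rp.mulS_pow (rd_shift j 14 115 rfl hj) 5 h2
  have h5 := Rp.mulS_pow (rd_shift j 15 116 rfl hj) 5 h4
  have h6 := fold_rep j hj (bs j) _ _ (by
    intro b hb
    unfold bs at hb
    rw [List.mem_filter, List.mem_range'_1] at hb
    refine ⟨by simpa using hb.2, by omega⟩) h5
  have e1 : bser j = 1 * (PowerSeries.X + PowerSeries.C (((0 : ℕ) : ℚ) - (j : ℚ))) ^ 5 *
      (PowerSeries.X + PowerSeries.C (((1 : ℕ) : ℚ) - (j : ℚ))) ^ 5 *
      (PowerSeries.X + PowerSeries.C (((14 : ℕ) : ℚ) - (j : ℚ))) ^ 5 *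
      (PowerSeries.X + PowerSeries.C (((15 : ℕ) : ℚ) - (j : ℚ))) ^ 5 *
      ((bs j).map (fun b : ℕ => iv ((b : ℚ) - j) ^ 10)).prod := by
    have e2 : ((bs j).map (fun b : ℕ => iv ((b : ℚ) - j) ^ 10)).prod =
        ∏ b ∈ (Finset.Icc 3 12).erase j, iv ((b : ℚ) - j) ^ 10 := by
      have e3 : (Finset.Icc 3 12).erase j = (bs j).toFinset := by
        ext b
        unfold bs
        rw [Finset.mem_erase, Finset.mem_Icc, List.mem_toFinset, List.mem_filter,
          List.mem_range'_1]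
        simp only [decide_eq_true_eq, ne_eq]
        omega
      rw [e3, List.prod_toFinset]
      unfold bs
      exact (List.nodup_range').filter _
    rw [e2]
    unfold bser
    rw [one_mul, mul_pow, mul_pow, mul_pow]
    push_cast
    rw [zero_sub]
  rw [e1]
  exact h6

theorem ser_rep (j : ℕ) (h3 : 3 ≤ j) (hj : j ≤ 12) (e : ℕ) :
    Rp (ser j e) (it (mulS (101 - j) 0) e (bl j)) := by
  rw [ser_eq]
  have := rd_shift j 0 101 rfl hj
  rw [Nat.cast_zero, zero_sub] at this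
  exact Rp.mulS_pow this e (bser_rep j h3 hj)

/-! ### weights -/

/-- harmonic sums -/
def hsm (e n : ℕ) : ℕ := ((List.range n).map (fun l => (iv101 (l + 1)) ^ e)).sum

/-- sign -/
def sg (d : ℕ) : ℕ := if d % 2 = 1 then 1 else 100

/-- weights -/
def wl (j : ℕ) : List ℕ := (List.range 10).map (fun d =>
  (Nat.choose (13 - d) 4 * (hsm (14 - d) (j - 2) + sg d * hsm (14 - d) (13 - j))) % 101)

theorem sum_range_list {R : Type*} [Semiring R] (f : ℕ → R) (n : ℕ) :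
    ((List.range n).map f).sum = ∑ m ∈ Finset.range n, f m := by
  induction n with
  | zero => simp
  | succ n ih => rw [List.range_succ, List.map_append, List.sum_append, ih, Finset.sum_range_succ]; simp

theorem hs_rd (e n : ℕ) (hn : n < 100) : Rd (hs e n) ((hsm e n : ℕ) : ZMod 101) := by
  unfold hs hsm
  rw [sum_range_list, Nat.cast_sum]
  apply Rd.sum
  intro l hl
  rw [Finset.mem_range] at hl
  rw [one_div, ← inv_pow, Nat.cast_pow]
  apply Rd.pow
  apply Rd.inv (a := ((l + 1 : ℕ) : ZMod 101))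
  · have := Rd.nat (l + 1)
    rw [Nat.cast_add, Nat.cast_one] at this
    exact this
  · exact iv101_mul (by omega) (by omega) (by omega)

theorem wl_rd (j d : ℕ) (h3 : 3 ≤ j) (hj : j ≤ 12) (hd : d < 10) :
    Rd (((Nat.choose (13 - d) 4 : ℕ) : ℚ) * (hs (14 - d) (j - 2) + (-1) ^ (11 - d) * hs (14 - d) (13 - j)))
      (((wl j).getD d 0 : ℕ) : ZMod 101) := by
  have e1 : (wl j).getD d 0 =
      (Nat.choose (13 - d) 4 * (hsm (14 - d) (j - 2) + sg d * hsm (14 - d) (13 - j))) % 101 := by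
    unfold wl
    rw [List.getD_eq_getElem?_getD, List.getElem?_map, List.getElem?_range hd]
    rfl
  rw [e1, ZMod.natCast_mod, Nat.cast_mul, Nat.cast_add, Nat.cast_mul]
  refine (Rd.nat _).mul ((hs_rd _ _ (by omega)).add (Rd.mul ?_ (hs_rd _ _ (by omega))))
  unfold sg
  split_ifs with h
  · have : Even (11 - d) := by
      rw [Nat.even_iff]; omega
    rw [this.neg_one_pow, Nat.cast_one]
    exact Rd.one
  · have : Odd (11 - d) := by
      rw [Nat.odd_iff]; omega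
    rw [this.neg_one_pow]
    have h100 : (((100 : ℕ)) : ZMod 101) = -1 := by decide
    rw [h100]
    exact Rd.one.neg

/-- dot product -/
def dot : List ℕ → List ℕ → ℕ
  | a :: l, b :: m => a * b + dot l m
  | _, _ => 0

theorem dot_eq (m : List ℕ) : ∀ l : List ℕ,
    dot l m = ∑ k ∈ Finset.range m.length, l.getD k 0 * m.getD k 0 := by
  induction m with
  | nil =>
    intro l
    cases l <;> simp [dot]
  | cons b m ih =>
    intro l
    cases l with
    | nil => simp [dot]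
    | cons a l =>
      rw [dot, ih, List.length_cons, Finset.sum_range_succ']
      simp only [List.getD_cons_succ, List.getD_cons_zero]
      rw [add_comm]

/-- values of the functional at the pole `j` -/
def run (c : ℕ) (w : List ℕ) : ℕ → List ℕ → List ℕ
  | 0, _ => []
  | n + 1, l => (dot w l) % 101 :: run c w n (mulS c 0 l)

theorem run_getD (c : ℕ) (w : List ℕ) (n : ℕ) : ∀ (l : List ℕ) (e : ℕ), e < n →
    (run c w n l).getD e 0 = dot w (it (mulS c 0) e l) % 101 := by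
  induction n with
  | zero => intro l e h; exact absurd h (Nat.not_lt_zero _)
  | succ n ih =>
    intro l e h
    cases e with
    | zero => simp [run, it]
    | succ e =>
      rw [run, List.getD_cons_succ, ih _ e (by omega)]
      rfl

/-- values of the functional at the pole `j` -/
def Rl (j : ℕ) : List ℕ := run (101 - j) (wl j) 79 (bl j)

theorem inner_rd (j e : ℕ) (h3 : 3 ≤ j) (hj : j ≤ 12) (he : e < 79) :
    Rd (∑ i ∈ Finset.Icc 1 10, ((Nat.choose (i + 3) 4 : ℕ) : ℚ) *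
      PowerSeries.coeff (10 - i) (ser j e) * (hs (i + 4) (j - 2) + (-1) ^ (i + 1) * hs (i + 4) (13 - j)))
      (((Rl j).getD e 0 : ℕ) : ZMod 101) := by
  have hr := ser_rep j h3 hj e
  have e1 : ∑ i ∈ Finset.Icc 1 10, ((Nat.choose (i + 3) 4 : ℕ) : ℚ) *
      PowerSeries.coeff (10 - i) (ser j e) * (hs (i + 4) (j - 2) + (-1) ^ (i + 1) * hs (i + 4) (13 - j)) =
      ∑ d ∈ Finset.range 10, (((Nat.choose (13 - d) 4 : ℕ) : ℚ) *
        (hs (14 - d) (j - 2) + (-1) ^ (11 - d) * hs (14 - d) (13 - j))) * PowerSeries.coeff d (ser j e) := by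
    refine Finset.sum_nbij' (fun i => 10 - i) (fun d => 10 - d) ?_ ?_ ?_ ?_ ?_
    · intro i hi
      rw [Finset.mem_Icc] at hi
      rw [Finset.mem_range]
      omega
    · intro d hd
      rw [Finset.mem_range] at hd
      rw [Finset.mem_Icc]
      omega
    · intro i hi
      rw [Finset.mem_Icc] at hi
      omega
    · intro d hd
      rw [Finset.mem_range] at hd
      omega
    · intro i hi
      rw [Finset.mem_Icc] at hi
      rw [show 13 - (10 - i) = i + 3 by omega, show 14 - (10 - i) = i + 4 by omega,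
        show 11 - (10 - i) = i + 1 by omega]
      ring
  have e2 : (((Rl j).getD e 0 : ℕ) : ZMod 101) =
      ∑ d ∈ Finset.range 10, (((wl j).getD d 0 : ℕ) : ZMod 101) *
        (((it (mulS (101 - j) 0) e (bl j)).getD d 0 : ℕ) : ZMod 101) := by
    unfold Rl
    rw [run_getD _ _ _ _ _ he, ZMod.natCast_mod, dot_eq, hr.1]
    push_cast
    rfl
  rw [e1, e2]
  apply Rd.sum
  intro d hd
  rw [Finset.mem_range] at hd
  exact (wl_rd j d h3 hj hd).mul (hr.2 d hd)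

/-- the values of `Fm` modulo 101 -/
def Fl : List ℕ := [
    0, 28, 85, 35, 25, 53, 76, 74, 10, 14, 91, 78, 64, 16, 20, 74, 79, 8, 79, 99, 86, 36, 49, 23,
    73, 76, 95, 68, 11, 7, 89, 23, 21, 54, 77, 73, 94, 96, 84, 99, 92, 61, 23, 78, 64, 17, 66,
    56, 89, 72, 5, 61, 51, 19, 32, 24, 14, 16, 60, 23, 82, 93, 26, 94, 17, 80, 35, 86, 98, 34, 9,
    45, 81, 91, 86, 45, 25, 44, 27]

/-- the values at the poles -/
def Rt : List (List ℕ) := [
  [
    36, 31, 34, 16, 81, 41, 88, 33, 4, 5, 55, 27, 67, 12, 0, 62, 54, 97, 59, 94, 4, 41, 25, 53,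
    94, 13, 2, 46, 69, 14, 68, 51, 23, 72, 6, 18, 20, 82, 27, 97, 19, 18, 30, 72, 20, 91, 48, 32,
    8, 1, 94, 36, 87, 45, 8, 83, 0, 87, 89, 42, 78, 63, 56, 53, 0, 11, 13, 75, 84, 99, 57, 67,
    19, 46, 41, 66, 50, 100, 4],
  [
    31, 96, 33, 30, 18, 16, 16, 70, 67, 35, 66, 31, 61, 60, 52, 49, 58, 44, 50, 10, 5, 45, 100,
    100, 48, 12, 53, 44, 52, 20, 20, 78, 44, 87, 50, 54, 33, 36, 45, 68, 23, 29, 16, 40, 83, 67,
    28, 89, 26, 10, 70, 32, 3, 7, 26, 34, 90, 65, 34, 86, 39, 84, 28, 49, 88, 85, 15, 2, 76, 80,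
    3, 73, 94, 71, 96, 57, 25, 35, 68],
  [
    84, 88, 84, 47, 62, 53, 26, 90, 57, 11, 82, 97, 20, 16, 93, 42, 96, 49, 87, 11, 82, 26, 18,
    13, 48, 5, 20, 50, 86, 81, 98, 44, 56, 38, 63, 68, 83, 81, 23, 18, 83, 94, 65, 16, 75, 47,
    96, 37, 89, 92, 61, 41, 51, 68, 14, 55, 35, 65, 4, 72, 22, 76, 2, 25, 99, 17, 51, 52, 75, 42,
    78, 59, 99, 10, 54, 77, 64, 70, 5],
  [
    68, 83, 35, 92, 43, 6, 37, 75, 66, 84, 18, 66, 9, 78, 87, 69, 44, 89, 92, 50, 12, 94, 44, 88,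
    24, 11, 48, 21, 83, 59, 93, 55, 88, 55, 75, 84, 67, 4, 23, 1, 30, 37, 24, 83, 0, 77, 40, 7,
    76, 18, 7, 76, 51, 82, 88, 79, 3, 81, 34, 9, 41, 70, 80, 33, 12, 38, 57, 11, 97, 94, 89, 80,
    40, 2, 98, 2, 100, 63, 6],
  [
    47, 16, 22, 60, 48, 50, 100, 77, 82, 95, 24, 78, 40, 36, 74, 93, 84, 47, 38, 94, 68, 93, 100,
    50, 99, 67, 6, 66, 65, 83, 75, 24, 85, 39, 29, 34, 65, 69, 51, 23, 83, 75, 56, 93, 15, 65,
    30, 21, 34, 56, 95, 30, 68, 28, 65, 35, 6, 17, 1, 65, 78, 61, 100, 65, 85, 86, 69, 86, 50,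
    82, 69, 13, 7, 14, 31, 10, 41, 83, 26],
  [
    54, 14, 33, 88, 4, 80, 2, 38, 92, 61, 92, 91, 28, 45, 7, 71, 38, 48, 41, 58, 82, 35, 55, 12,
    21, 45, 25, 74, 100, 85, 30, 31, 62, 98, 57, 19, 70, 8, 17, 81, 26, 94, 51, 80, 21, 49, 90,
    84, 57, 95, 8, 92, 49, 68, 28, 10, 42, 24, 67, 8, 42, 45, 88, 99, 73, 59, 46, 5, 95, 29, 18,
    73, 57, 86, 3, 6, 96, 50, 12],
  [
    33, 93, 52, 49, 89, 3, 82, 72, 9, 6, 45, 62, 68, 12, 39, 48, 88, 70, 1, 4, 36, 78, 91, 9, 11,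
    71, 20, 68, 79, 10, 87, 36, 92, 59, 13, 80, 6, 97, 6, 1, 65, 89, 34, 98, 31, 98, 18, 66, 65,
    7, 62, 64, 9, 99, 90, 1, 50, 96, 35, 25, 36, 63, 34, 56, 19, 85, 29, 32, 47, 63, 40, 77, 51,
    64, 71, 81, 12, 88, 45],
  [
    17, 35, 91, 95, 36, 87, 37, 16, 23, 73, 99, 88, 68, 89, 15, 81, 33, 2, 9, 86, 19, 44, 94, 9,
    22, 50, 59, 21, 96, 41, 91, 73, 79, 69, 57, 21, 12, 1, 16, 20, 4, 22, 94, 1, 53, 83, 91, 69,
    63, 96, 18, 49, 20, 62, 63, 99, 6, 4, 35, 53, 45, 30, 94, 22, 83, 61, 79, 82, 99, 59, 54, 88,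
    32, 31, 8, 56, 1, 20, 48],
  [
    70, 56, 10, 48, 87, 63, 48, 53, 47, 6, 19, 76, 10, 97, 66, 60, 67, 68, 37, 75, 72, 54, 31,
    18, 100, 17, 60, 4, 61, 7, 95, 38, 54, 5, 19, 91, 63, 97, 16, 16, 69, 6, 48, 52, 87, 70, 32,
    21, 23, 50, 64, 36, 38, 64, 79, 71, 69, 89, 90, 50, 5, 88, 51, 60, 27, 10, 16, 56, 7, 58, 62,
    2, 20, 100, 10, 6, 67, 60, 67],
  [
    65, 66, 26, 46, 12, 53, 94, 8, 48, 14, 15, 13, 70, 44, 52, 58, 66, 84, 12, 25, 39, 60, 100,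
    29, 66, 37, 16, 43, 5, 98, 62, 52, 2, 30, 59, 64, 93, 35, 96, 81, 11, 81, 64, 94, 56, 43, 67,
    23, 76, 8, 21, 89, 78, 64, 12, 14, 89, 62, 56, 72, 37, 34, 47, 50, 2, 74, 95, 18, 80, 67, 26,
    29, 5, 91, 7, 99, 24, 94, 96]]

theorem Rl3 : Rl 3 = Rt.getD 0 [] := by decide +kernel

theorem Rl4 : Rl 4 = Rt.getD 1 [] := by decide +kernel

theorem Rl5 : Rl 5 = Rt.getD 2 [] := by decide +kernel

theorem Rl6 : Rl 6 = Rt.getD 3 [] := by decide +kernel

theorem Rl7 : Rl 7 = Rt.getD 4 [] := by decide +kernel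

theorem Rl8 : Rl 8 = Rt.getD 5 [] := by decide +kernel

theorem Rl9 : Rl 9 = Rt.getD 6 [] := by decide +kernel

theorem Rl10 : Rl 10 = Rt.getD 7 [] := by decide +kernel

theorem Rl11 : Rl 11 = Rt.getD 8 [] := by decide +kernel

theorem Rl12 : Rl 12 = Rt.getD 9 [] := by decide +kernel

theorem hF : ((List.range 79).all fun e =>
    ((Rt.map (fun l => l.getD e 0)).sum + Fl.getD e 0) % 101 == 0) = true := by
  decide +kernel

/-- the inverse matrix modulo 101 -/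
def Nl : List (List ℕ) := [
  [
    81, 78, 44, 60, 93, 58, 82, 20, 64, 69, 86, 20, 82, 3, 30, 86, 7, 91, 29, 85, 22, 100, 40,
    100, 20, 94, 65, 92, 96, 91, 74, 27, 91, 78, 62, 32, 93, 4, 7, 65],
  [
    78, 78, 85, 26, 7, 23, 14, 45, 80, 87, 49, 34, 43, 27, 28, 100, 79, 18, 40, 92, 12, 72, 93,
    27, 16, 29, 72, 14, 86, 37, 81, 55, 11, 72, 6, 33, 75, 87, 33, 78],
  [
    44, 85, 74, 37, 77, 70, 26, 77, 62, 21, 57, 42, 71, 65, 54, 14, 6, 76, 34, 35, 89, 17, 92,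
    88, 44, 49, 51, 37, 48, 77, 51, 66, 84, 39, 58, 20, 49, 51, 43, 79],
  [
    60, 26, 37, 57, 51, 97, 21, 48, 97, 35, 15, 40, 29, 29, 68, 20, 96, 76, 44, 16, 26, 86, 12,
    93, 84, 76, 36, 0, 6, 29, 70, 0, 83, 83, 84, 19, 6, 74, 42, 46],
  [
    93, 7, 77, 51, 95, 34, 64, 87, 30, 99, 79, 5, 8, 72, 43, 44, 33, 60, 69, 11, 44, 86, 81, 31,
    41, 21, 19, 65, 86, 63, 85, 45, 65, 25, 61, 99, 9, 31, 63, 28],
  [
    58, 23, 70, 97, 34, 44, 27, 32, 21, 60, 70, 59, 91, 19, 15, 63, 2, 80, 15, 32, 25, 61, 7, 11,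
    60, 78, 68, 61, 99, 25, 90, 7, 54, 58, 82, 65, 100, 4, 63, 22],
  [
    82, 14, 26, 21, 64, 27, 60, 7, 11, 10, 4, 50, 55, 30, 72, 24, 79, 36, 82, 51, 19, 3, 85, 78,
    23, 87, 3, 25, 29, 45, 26, 3, 100, 35, 8, 18, 54, 1, 79, 82],
  [
    20, 45, 77, 48, 87, 32, 7, 93, 77, 60, 77, 64, 3, 43, 71, 86, 73, 19, 45, 60, 34, 45, 24, 35,
    17, 82, 37, 75, 67, 9, 22, 88, 40, 85, 5, 48, 86, 73, 100, 95],
  [
    64, 80, 62, 97, 30, 21, 11, 77, 69, 66, 24, 32, 16, 56, 65, 70, 90, 15, 32, 60, 1, 99, 4, 16,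
    40, 14, 8, 1, 44, 18, 95, 15, 10, 32, 5, 55, 50, 97, 85, 37],
  [
    69, 87, 21, 35, 99, 60, 10, 60, 66, 84, 37, 19, 64, 51, 60, 72, 32, 92, 23, 51, 19, 98, 20,
    12, 12, 84, 25, 54, 6, 16, 95, 34, 49, 26, 41, 98, 27, 13, 17, 74],
  [
    86, 49, 57, 15, 79, 70, 4, 77, 24, 37, 100, 69, 8, 20, 11, 74, 58, 15, 36, 9, 29, 56, 23, 8,
    41, 63, 0, 41, 33, 5, 13, 18, 90, 71, 9, 74, 5, 24, 8, 22],
  [
    20, 34, 42, 40, 5, 59, 50, 64, 32, 19, 69, 1, 78, 3, 74, 5, 1, 89, 88, 28, 32, 91, 86, 65,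
    84, 79, 95, 14, 95, 97, 85, 87, 82, 69, 3, 67, 0, 94, 94, 77],
  [
    82, 43, 71, 29, 8, 91, 55, 3, 16, 64, 8, 78, 49, 90, 92, 45, 64, 22, 64, 61, 5, 16, 77, 39,
    8, 67, 80, 37, 13, 45, 17, 33, 59, 28, 25, 64, 22, 65, 72, 69],
  [
    3, 27, 65, 29, 72, 19, 30, 43, 56, 51, 20, 3, 90, 80, 60, 87, 65, 79, 51, 90, 37, 65, 77, 48,
    43, 52, 47, 8, 5, 78, 0, 99, 10, 39, 32, 29, 71, 55, 93, 93],
  [
    30, 28, 54, 68, 43, 15, 72, 71, 65, 60, 11, 74, 92, 60, 71, 23, 4, 39, 52, 39, 85, 37, 38,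
    32, 91, 8, 77, 54, 29, 2, 100, 77, 96, 39, 64, 55, 91, 40, 21, 24],
  [
    86, 100, 14, 20, 44, 63, 24, 86, 70, 72, 74, 5, 45, 87, 23, 9, 67, 47, 83, 87, 85, 3, 78, 43,
    67, 20, 47, 67, 24, 33, 44, 1, 17, 45, 96, 68, 88, 51, 82, 48],
  [
    7, 79, 6, 96, 33, 2, 79, 73, 90, 32, 58, 1, 64, 65, 4, 67, 15, 3, 77, 53, 9, 62, 47, 7, 4,
    43, 26, 57, 6, 96, 22, 60, 24, 42, 54, 10, 62, 100, 1, 83],
  [
    91, 18, 76, 76, 60, 80, 36, 19, 15, 92, 15, 89, 22, 79, 39, 47, 3, 1, 16, 85, 19, 97, 41, 88,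
    28, 63, 25, 30, 25, 46, 27, 81, 26, 34, 93, 84, 85, 11, 90, 65],
  [
    29, 40, 34, 44, 69, 15, 82, 45, 32, 23, 36, 88, 64, 51, 52, 83, 77, 16, 92, 83, 51, 2, 12,
    27, 13, 26, 60, 95, 21, 14, 37, 79, 6, 45, 47, 98, 61, 47, 30, 79],
  [
    85, 92, 35, 16, 11, 32, 51, 60, 60, 51, 9, 28, 61, 90, 39, 87, 53, 85, 83, 36, 70, 84, 33,
    96, 84, 32, 3, 44, 83, 98, 16, 53, 99, 59, 77, 76, 58, 6, 44, 79],
  [
    22, 12, 89, 26, 44, 25, 19, 34, 1, 19, 29, 32, 5, 37, 85, 85, 9, 19, 51, 70, 30, 45, 89, 76,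
    80, 81, 3, 97, 26, 12, 32, 94, 31, 55, 50, 21, 55, 21, 88, 98],
  [
    100, 72, 17, 86, 86, 61, 3, 45, 99, 98, 56, 91, 16, 65, 37, 3, 62, 97, 2, 84, 45, 38, 39, 6,
    99, 33, 35, 75, 90, 46, 12, 73, 1, 19, 100, 61, 69, 43, 62, 12],
  [
    40, 93, 92, 12, 81, 7, 85, 24, 4, 20, 23, 86, 77, 77, 38, 78, 47, 41, 12, 33, 89, 39, 4, 22,
    51, 22, 77, 21, 63, 80, 83, 2, 35, 94, 68, 97, 59, 32, 62, 17],
  [
    100, 27, 88, 93, 31, 11, 78, 35, 16, 12, 8, 65, 39, 48, 32, 43, 7, 88, 27, 96, 76, 6, 22, 2,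
    70, 5, 13, 13, 16, 9, 60, 42, 80, 51, 97, 87, 14, 42, 23, 99],
  [
    20, 16, 44, 84, 41, 60, 23, 17, 40, 12, 41, 84, 8, 43, 91, 67, 4, 28, 13, 84, 80, 99, 51, 70,
    99, 34, 60, 34, 7, 90, 10, 22, 29, 44, 67, 2, 68, 89, 14, 62],
  [
    94, 29, 49, 76, 21, 78, 87, 82, 14, 84, 63, 79, 67, 52, 8, 20, 43, 63, 26, 32, 81, 33, 22, 5,
    34, 93, 53, 13, 64, 86, 43, 91, 49, 76, 69, 84, 29, 80, 97, 22],
  [
    65, 72, 51, 36, 19, 68, 3, 37, 8, 25, 0, 95, 80, 47, 77, 47, 26, 25, 60, 3, 3, 35, 77, 13,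
    60, 53, 91, 1, 68, 43, 7, 8, 15, 23, 34, 11, 94, 37, 79, 82],
  [
    92, 14, 37, 0, 65, 61, 25, 75, 1, 54, 41, 14, 37, 8, 54, 67, 57, 30, 95, 44, 97, 75, 21, 13,
    34, 13, 1, 91, 39, 11, 11, 4, 74, 75, 84, 55, 92, 17, 78, 35],
  [
    96, 86, 48, 6, 86, 99, 29, 67, 44, 6, 33, 95, 13, 5, 29, 24, 6, 25, 21, 83, 26, 90, 63, 16,
    7, 64, 68, 39, 4, 0, 38, 38, 0, 1, 82, 55, 6, 37, 2, 11],
  [
    91, 37, 77, 29, 63, 25, 45, 9, 18, 16, 5, 97, 45, 78, 2, 33, 96, 46, 14, 98, 12, 46, 80, 9,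
    90, 86, 43, 11, 0, 6, 33, 60, 12, 65, 33, 84, 82, 21, 77, 79],
  [
    74, 81, 51, 70, 85, 90, 26, 22, 95, 95, 13, 85, 17, 0, 100, 44, 22, 27, 37, 16, 32, 12, 83,
    60, 10, 43, 7, 11, 38, 33, 41, 40, 50, 25, 27, 13, 41, 49, 45, 45],
  [
    27, 55, 66, 0, 45, 7, 3, 88, 15, 34, 18, 87, 33, 99, 77, 1, 60, 81, 79, 53, 94, 73, 2, 42,
    22, 91, 8, 4, 38, 60, 40, 44, 54, 39, 14, 6, 98, 83, 51, 99],
  [
    91, 11, 84, 83, 65, 54, 100, 40, 10, 49, 90, 82, 59, 10, 96, 17, 24, 26, 6, 99, 31, 1, 35,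
    80, 29, 49, 15, 74, 0, 12, 50, 54, 1, 52, 81, 81, 47, 57, 69, 10],
  [
    78, 72, 39, 83, 25, 58, 35, 85, 32, 26, 71, 69, 28, 39, 39, 45, 42, 34, 45, 59, 55, 19, 94,
    51, 44, 76, 23, 75, 1, 65, 25, 39, 52, 57, 32, 31, 89, 35, 16, 99],
  [
    62, 6, 58, 84, 61, 82, 8, 5, 5, 41, 9, 3, 25, 32, 64, 96, 54, 93, 47, 77, 50, 100, 68, 97,
    67, 69, 34, 84, 82, 33, 27, 14, 81, 32, 22, 36, 47, 9, 96, 1],
  [
    32, 33, 20, 19, 99, 65, 18, 48, 55, 98, 74, 67, 64, 29, 55, 68, 10, 84, 98, 76, 21, 61, 97,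
    87, 2, 84, 11, 55, 55, 84, 13, 6, 81, 31, 36, 50, 72, 65, 81, 7],
  [
    93, 75, 49, 6, 9, 100, 54, 86, 50, 27, 5, 0, 22, 71, 91, 88, 62, 85, 61, 58, 55, 69, 59, 14,
    68, 29, 94, 92, 6, 82, 41, 98, 47, 89, 47, 72, 36, 42, 17, 64],
  [
    4, 87, 51, 74, 31, 4, 1, 73, 97, 13, 24, 94, 65, 55, 40, 51, 100, 11, 47, 6, 21, 43, 32, 42,
    89, 80, 37, 17, 37, 21, 49, 83, 57, 35, 9, 65, 42, 43, 71, 65],
  [
    7, 33, 43, 42, 63, 63, 79, 100, 85, 17, 8, 94, 72, 93, 21, 82, 1, 90, 30, 44, 88, 62, 62, 23,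
    14, 97, 79, 78, 2, 77, 45, 51, 69, 16, 96, 81, 17, 71, 59, 2],
  [
    65, 78, 79, 46, 28, 22, 82, 95, 37, 74, 22, 77, 69, 93, 24, 48, 83, 65, 79, 79, 98, 12, 17,
    99, 62, 22, 82, 35, 11, 79, 45, 99, 10, 99, 1, 7, 64, 65, 2, 0]]

theorem hN : ((List.range 40).all fun i => (List.range 40).all fun k =>
    (dot (Fl.drop i) (Nl.getD k [])) % 101 == if i = k then 1 else 0) = true := by
  decide +kernel

theorem hNlen : ((List.range 40).all fun k => (Nl.getD k []).length == 40) = true := by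
  decide +kernel

theorem Fm_rd (e : ℕ) (he : e < 79) : Rd (Fm e) ((Fl.getD e 0 : ℕ) : ZMod 101) := by
  have h1 : Rd (∑ j ∈ Finset.Icc 3 12, ∑ i ∈ Finset.Icc 1 10, ((Nat.choose (i + 3) 4 : ℕ) : ℚ) *
      PowerSeries.coeff (10 - i) (ser j e) * (hs (i + 4) (j - 2) + (-1) ^ (i + 1) * hs (i + 4) (13 - j)))
      (∑ j ∈ Finset.Icc 3 12, (((Rl j).getD e 0 : ℕ) : ZMod 101)) := by
    apply Rd.sum
    intro j hj
    rw [Finset.mem_Icc] at hj
    exact inner_rd j e hj.1 hj.2 he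
  have h2 := h1.neg
  have h3 := List.all_eq_true.1 hF e (List.mem_range.2 he)
  have h4 : ((Rt.map (fun l => l.getD e 0)).sum + Fl.getD e 0) % 101 = 0 := by simpa using h3
  have h5 : (((Rt.map (fun l => l.getD e 0)).sum + Fl.getD e 0 : ℕ) : ZMod 101) = 0 := by
    rw [← ZMod.natCast_mod, h4, Nat.cast_zero]
  have h6 : (∑ j ∈ Finset.Icc 3 12, (Rl j).getD e 0) = (Rt.map (fun l => l.getD e 0)).sum := by
    have e0 : (Finset.Icc 3 12 : Finset ℕ) = {3, 4, 5, 6, 7, 8, 9, 10, 11, 12} := by decide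
    rw [e0]
    repeat rw [Finset.sum_insert (by decide)]
    rw [Finset.sum_singleton, Rl3, Rl4, Rl5, Rl6, Rl7, Rl8, Rl9, Rl10, Rl11, Rl12]
    rfl
  have h7 : -(∑ j ∈ Finset.Icc 3 12, (((Rl j).getD e 0 : ℕ) : ZMod 101)) =
      ((Fl.getD e 0 : ℕ) : ZMod 101) := by
    rw [← Nat.cast_sum, h6]
    rw [Nat.cast_add] at h5
    exact neg_eq_of_add_eq_zero_right h5
  rw [h7] at h2
  exact h2

end H5

theorem H5_local : (Matrix.of fun l l' : Fin 40 => Fm (l.1 + l'.1)).det ≠ 0 := by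
  have : Fact (Nat.Prime 101) := ⟨H5.prime101⟩
  let A : Matrix (Fin 40) (Fin 40) (ZMod 101) := fun i j => ((H5.Fl.getD (i.1 + j.1) 0 : ℕ) : ZMod 101)
  let B : Matrix (Fin 40) (Fin 40) (ZMod 101) := fun j k =>
    (((H5.Nl.getD k.1 []).getD j.1 0 : ℕ) : ZMod 101)
  have hAB : A * B = 1 := by
    ext i k
    have h1 := List.all_eq_true.1 (List.all_eq_true.1 H5.hN i.1 (List.mem_range.2 i.2)) k.1
      (List.mem_range.2 k.2)
    have h2 : (H5.dot (H5.Fl.drop i.1) (H5.Nl.getD k.1 [])) % 101 = if i.1 = k.1 then 1 else 0 := by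
      simpa using h1
    have h3 : (H5.Nl.getD k.1 []).length = 40 := by
      have := List.all_eq_true.1 H5.hNlen k.1 (List.mem_range.2 k.2)
      simpa using this
    have h4 := congrArg (fun z : ℕ => (z : ZMod 101)) h2
    simp only [ZMod.natCast_mod] at h4
    rw [H5.dot_eq, h3, Nat.cast_sum] at h4
    rw [Matrix.mul_apply, ← Fin.sum_univ_eq_sum_range (fun j =>
      ((((H5.Fl.drop i.1).getD j 0 * (H5.Nl.getD k.1 []).getD j 0 : ℕ)) : ZMod 101)) 40] at *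
    have h5 : ∀ j : Fin 40, A i j * B j k =
        ((((H5.Fl.drop i.1).getD j.1 0 * (H5.Nl.getD k.1 []).getD j.1 0 : ℕ)) : ZMod 101) := by
      intro j
      have : (H5.Fl.drop i.1).getD j.1 0 = H5.Fl.getD (i.1 + j.1) 0 := by
        rw [List.getD_eq_getElem?_getD, List.getD_eq_getElem?_getD, List.getElem?_drop]
      rw [this, Nat.cast_mul]
    rw [Finset.sum_congr rfl (fun j _ => h5 j), h4]
    by_cases hik : i = k
    · subst hik; simp
    · have : i.1 ≠ k.1 := fun h => hik (Fin.ext h)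
      simp [hik, this]
  have hdet : A.det ≠ 0 := by
    intro h0
    have := congrArg Matrix.det hAB
    rw [Matrix.det_mul, h0, zero_mul, Matrix.det_one] at this
    exact zero_ne_one this
  refine H5.Rd.ne_zero (H5.Rd.det _ A ?_) hdet
  intro i j
  exact H5.Fm_rd _ (by omega)

end Pool.Agent.J6H37.Z13
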